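import Mathlib
import Pool.Agent.H.MP_3ab43d_mp.Main

namespace Pool.Agent.H.MP_dd0251_mp

open Filter Topology Set Finset Pool.Agent.H.MP_3ab43d_mp

noncomputable def Po (w s : ℝ) : ℝ := w * (2 - w) / (w ^ 2 + 4 * (1 - w) * s ^ 2)

lemma ces (z : ℂ) (h1 : ‖z‖ = 1) (h : z ≠ 1) :
    Tendsto (fun n : ℕ => (n : ℂ)⁻¹ * ∑ N ∈ range n, z ^ N) atTop (𝓝 0) := by
  have := (tendsto_inv_atTop_nhds_zero_nat (𝕜 := ℝ)).mul_const (2 / ‖z - 1‖)
  rw [zero_mul] at this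
  refine squeeze_zero_norm (fun n => ?_) this
  rw [geom_sum_eq h, norm_mul, norm_inv, Complex.norm_natCast, norm_div]
  gcongr
  exact (norm_sub_le _ _).trans (by rw [norm_pow, h1]; norm_num)

lemma Po_eq (w : ℝ) (w0 : 0 < w) (w1 : w ≤ 1) (M : ℂ) (h : ‖M‖ = 1) :
    Po w M.im = 1 + 2 * (∑' k : ℕ, (((1 - w : ℝ) : ℂ) * M ^ 2) ^ (k + 1)).re := by
  have s : M.re ^ 2 = 1 - M.im ^ 2 := by
    have := Complex.sq_norm M
    rw [h, Complex.normSq_apply] at this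
    linarith
  have n : ‖((1 - w : ℝ) : ℂ) * M ^ 2‖ < 1 := by
    rw [norm_mul, norm_pow, h, Complex.norm_real, Real.norm_of_nonneg (by linarith)]; linarith
  have d : Complex.normSq (1 - ((1 - w : ℝ) : ℂ) * M ^ 2) = w ^ 2 + 4 * (1 - w) * M.im ^ 2 := by
    simp only [sq M, Complex.normSq_apply, Complex.sub_re, Complex.sub_im, Complex.mul_re,
      Complex.mul_im, Complex.ofReal_re, Complex.ofReal_im, Complex.one_re, Complex.one_im]
    linear_combination ((1 - w) ^ 2 * (M.re ^ 2 + M.im ^ 2 + 1) - 2 * (1 - w)) * s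
  have p : 0 < w ^ 2 + 4 * (1 - w) * M.im ^ 2 := by have := sub_nonneg.2 w1; positivity
  simp only [pow_succ' (((1 - w : ℝ) : ℂ) * M ^ 2), tsum_mul_left]
  rw [tsum_geometric_of_norm_lt_one n, ← div_eq_mul_inv, Complex.div_re, d, Po]
  simp only [sq M, Complex.sub_re, Complex.sub_im, Complex.mul_re,
    Complex.mul_im, Complex.ofReal_re, Complex.ofReal_im, Complex.one_re, Complex.one_im]
  field_simp
  linear_combination (2 * (1 - w) ^ 2 * (M.re ^ 2 + M.im ^ 2 + 1) - 2 * (1 - w)) * s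

lemma weyl (w : ℝ) (w0 : 0 < w) (w1 : w ≤ 1) (ζ μ : ℂ) (h1 : ‖ζ‖ = 1) (h2 : ‖μ‖ = 1)
    (h : ∀ q, 1 ≤ q → (μ ^ q).im ≠ 0) :
    Tendsto (fun n : ℕ => (n : ℝ)⁻¹ * ∑ N ∈ range n, Po w (ζ * μ ^ N).im) atTop (𝓝 1) := by
  obtain ⟨x, hx⟩ : ∃ x, x = ((1 - w : ℝ) : ℂ) * ζ ^ 2 := ⟨_, rfl⟩
  have n : ‖x‖ < 1 := by
    rw [hx, norm_mul, norm_pow, h1, Complex.norm_real, Real.norm_of_nonneg (by linarith)]; linarith
  have sm : Summable fun k : ℕ => ‖x‖ ^ (k + 1) :=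
    (summable_nat_add_iff 1).2 (summable_geometric_of_lt_one (norm_nonneg _) n)
  have nz : ∀ k, ‖μ ^ (2 * (k + 1))‖ = 1 := fun k => by rw [norm_pow, h2, one_pow]
  have t := tendsto_tsum_of_dominated_convergence (𝓕 := atTop) (g := fun _ => 0)
    (f := fun (n : ℕ) k => x ^ (k + 1) * ((n : ℂ)⁻¹ * ∑ N ∈ range n, (μ ^ (2 * (k + 1))) ^ N)) sm
    (fun k => by
      simpa using (ces _ (nz k) fun c => h (2 * (k + 1)) (by omega) (by rw [c]; rfl)).const_mul (x ^ (k + 1)))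
    (Eventually.of_forall fun n k => by
      rw [norm_mul, norm_pow, norm_mul, norm_inv, Complex.norm_natCast]
      refine mul_le_of_le_one_right (by positivity) (inv_mul_le_one_of_le₀ ?_ (by positivity))
      exact (norm_sum_le _ _).trans (by simp [h2]))
  have t2 := (((Complex.continuous_re.tendsto _).comp t).const_mul 2).const_add 1
  simp only [tsum_zero, Complex.zero_re, mul_zero, add_zero] at t2
  refine t2.congr' ?_
  filter_upwards [eventually_gt_atTop 0] with n hn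
  have e : ∀ N k, (((1 - w : ℝ) : ℂ) * (ζ * μ ^ N) ^ 2) ^ (k + 1) =
      x ^ (k + 1) * (μ ^ (2 * (k + 1))) ^ N := fun N k => by rw [hx]; ring
  rw [sum_congr rfl fun N _ => Po_eq w w0 w1 _ (by rw [norm_mul, norm_pow, h1, h2]; simp),
    sum_add_distrib, ← mul_sum, ← Complex.re_sum, mul_add, sum_const, card_range, nsmul_eq_mul,
    mul_one, inv_mul_cancel₀ (by positivity), mul_left_comm, ← Complex.re_ofReal_mul]
  simp only [e, Function.comp, mul_left_comm _ (n : ℂ)⁻¹, tsum_mul_left]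
  rw [← Summable.tsum_finsetSum fun N _ => Summable.of_norm (by simpa [h2] using sm)]
  simp [mul_sum]

lemma dens (μ : ℂ) (h2 : ‖μ‖ = 1) (h : ∀ q, 1 ≤ q → (μ ^ q).im ≠ 0) (f : ℂ) (ε : ℝ) (hε : 0 < ε) :
    ∃ j, |(μ ^ j * f).im| ≤ ε * ‖f‖ := by
  by_contra hc
  push Not at hc
  have f0 : 0 < ‖f‖ := norm_pos_iff.2 (by rintro rfl; simpa using hc 0)
  obtain ⟨w, w0, w1, w2⟩ : ∃ w : ℝ, 0 < w ∧ w ≤ 1 / 2 ∧ w ≤ ε ^ 2 / 2 :=
    ⟨min (1 / 2) (ε ^ 2 / 2), by positivity, min_le_left _ _, min_le_right _ _⟩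
  have := le_of_tendsto' (weyl w w0 (by linarith) ((‖f‖⁻¹ : ℝ) * f) μ (by simp [f0.ne']) h2 h)
    (b := 1 / 2) fun n => by
      refine inv_mul_le_of_le_mul₀ (by positivity) (by norm_num) ((sum_le_card_nsmul _ _ (1 / 2)
        fun N _ => ?_).trans (by simp))
      have a := hc N
      rw [mul_assoc, Complex.im_ofReal_mul, mul_comm f]
      rw [← lt_div_iff₀ f0, ← abs_of_pos f0, ← abs_div, div_eq_inv_mul] at a
      generalize ‖f‖⁻¹ * (μ ^ N * f).im = s at *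
      have b : ε ^ 2 < s ^ 2 := by rw [← sq_abs s]; gcongr
      have : 0 ≤ 1 - w := by linarith
      rw [Po, div_le_iff₀ (by positivity)]
      nlinarith [sq_nonneg s]
  norm_num at this

def Fq (p : ℕ) (U : ℤ → ℝ) (E : ℝ) (m : ℂ) : Prop :=
  0 < m.im ∧ ‖fl U E m p‖ = 1 ∧ fl U E m (p + 1) = fl U E m p * m

variable {p : ℕ} {U : ℤ → ℝ} {E : ℝ} {m : ℂ}

lemma Fq.per (h : Fq p U E m) (hU : Function.Periodic U p) (j n : ℕ) :
    fl U E m (j * p + n) = fl U E m p ^ j * fl U E m n := by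
  induction j with
  | zero => simp
  | succ j ih =>
    have : ∀ n, fl U E m (p + n) = fl U E m p * fl U E m n := fun n =>
      uniq (fun n => ((E - U n : ℝ) : ℂ)) (fun n => fl U E m (p + n))
        (fun n => fl U E m p * fl U E m n) n
        (fun n _ => by rw [← add_assoc, fl_add, add_assoc, Nat.cast_add, add_comm (p : ℤ), hU])
        (fun n _ => by rw [fl_add]; ring) (by simp [fl, sol]) h.2.2 n le_rfl
    rw [show (j + 1) * p + n = p + (j * p + n) by ring, this, ih]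
    ring

lemma Fq.pow (h : Fq p U E m) (hU : Function.Periodic U p) (j : ℕ) :
    fl U E m (j * p) = fl U E m p ^ j := by
  simpa [fl, sol] using h.per hU j 0

lemma Fq.mul (h : Fq p U E m) (hU : Function.Periodic U p) (j : ℕ) : Fq (j * p) U E m :=
  ⟨h.1, by rw [h.pow hU, norm_pow, h.2.1, one_pow], by rw [h.per hU, h.pow hU]; rfl⟩

lemma Fq.nr (h : Fq p U E m) (hU : Function.Periodic U p) (hp : 0 < p)
    (z : ∀ n, th U E (n + 1) ≠ 0) (q : ℕ) (hq : 1 ≤ q) : (fl U E m p ^ q).im ≠ 0 := by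
  obtain ⟨n, hn⟩ : ∃ n, q * p = n + 1 := ⟨q * p - 1, by have := Nat.mul_pos hq hp; omega⟩
  rw [← h.pow hU, fl_im, hn]
  exact mul_ne_zero h.1.ne' (z n)

lemma Fq.pert {q : ℕ} (h : Fq (q + 1) U E m) (U' : ℤ → ℝ) (d y : ℝ)
    (off : ∀ n : ℕ, n + 2 ≤ q + 1 → U' (n + 1 : ℕ) = U (n + 1 : ℕ))
    (U1 : U' (q + 1 : ℕ) = U (q + 1 : ℕ) - d) (c0 : (fl U E m (q + 1)).im ≠ 0) (hy0 : 0 < y)
    (hy : y ^ 2 = m.im ^ 2 - d ^ 2 / 4 -
      d * (fl U E m (q + 1)).re * m.im / (fl U E m (q + 1)).im) :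
    Fq (q + 1) U' E (m + ⟨d / 2, y - m.im⟩) ∧ ∀ n ≤ q + 1,
      fl U' E (m + ⟨d / 2, y - m.im⟩) n = fl U E m n + ⟨d / 2, y - m.im⟩ * th U E n := by
  obtain ⟨y0, M2, M1⟩ := h
  obtain ⟨M, M0⟩ : ∃ M, fl U E m (q + 1) = M := ⟨_, rfl⟩
  obtain ⟨c, hc'⟩ : ∃ c, c = th U E (q + 1) := ⟨_, rfl⟩
  have s1 : M.im = m.im * c := by rw [← M0, fl_im, hc']
  rw [M0] at M1 M2 c0 hy
  have s2 : th U E (q + 1 + 1) = M.re + c * m.re := by
    have := fl_im U E m (q + 1 + 1)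
    rw [M1, Complex.mul_im, s1] at this
    exact mul_left_cancel₀ y0.ne' (by linarith)
  have s3 : M.re ^ 2 + M.im ^ 2 = 1 := by
    rw [sq, sq, ← Complex.normSq_apply, Complex.normSq_eq_norm_sq, M2]; simp
  have c1 : c ≠ 0 := fun h => c0 (by rw [s1, h, mul_zero])
  have hy' : c * y ^ 2 = c * m.im ^ 2 - c * d ^ 2 / 4 - d * M.re := by rw [hy, s1]; field_simp
  obtain ⟨z, hz⟩ : ∃ z : ℂ, z = ⟨d / 2, y - m.im⟩ := ⟨_, rfl⟩
  rw [← hz]
  have key : ∀ n ≤ q + 1, fl U' E (m + z) n = fl U E m n + z * th U E n :=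
    uniq (fun n => ((E - U n : ℝ) : ℂ)) _ _ (q + 1) (fun n hn => by rw [fl_add, off n hn])
      (fun n _ => by rw [fl_add, th_add]; push_cast; ring) (by simp [fl, sol, th_zero])
      (by simp [fl, sol, th_one])
  refine ⟨⟨by simpa [hz] using hy0, ?_, ?_⟩, key⟩
  · rw [key _ le_rfl, M0, ← hc', ← sq_eq_sq₀ (norm_nonneg _) zero_le_one,
      ← Complex.normSq_eq_norm_sq, Complex.normSq_apply]
    simp only [hz, Complex.add_re, Complex.add_im, Complex.mul_re, Complex.mul_im,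
      Complex.ofReal_re, Complex.ofReal_im]
    rw [s1] at s3 ⊢
    linear_combination s3 + c * hy'
  · have a := fl_add U E m q
    have b := congrArg (fun x : ℝ => (x : ℂ)) (th_add U E q)
    rw [s2, ← hc'] at b
    rw [M1, M0] at a
    rw [fl_add, key _ le_rfl, key q q.le_succ, M0, ← hc', U1]
    have e : (M + z * c) * (m + z) = d * (M + z * c) + M * m + z * (M.re + c * m.re : ℝ) := by
      apply Complex.ext <;>
        simp only [hz, Complex.add_re, Complex.add_im, Complex.mul_re, Complex.mul_im,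
          Complex.ofReal_re, Complex.ofReal_im, s1]
      · linear_combination (-1) * hy'
      · ring
    rw [e, a]
    push_cast at b ⊢
    linear_combination (-z) * b

lemma wr (U : ℤ → ℝ) (E : ℝ) (m : ℂ) (n : ℕ) :
    ((starRingEnd ℂ) (fl U E m n) * fl U E m (n + 1)).im = m.im := by
  induction n with
  | zero => simp [fl, sol]
  | succ n ih => rw [fl_add, ← ih]; simp; ring

lemma other (e g h : ℂ) (σ : ℝ) (he : ‖e‖ = 1) (s0 : 0 < σ) (g1 : σ ≤ ‖g‖) (h2 : ‖h‖ ≤ 10 * σ)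
    (w : |((starRingEnd ℂ) g * h).im| ≤ 4) (a : |(e * g).im| ≤ 1 / σ ^ 2 * ‖e * g‖) :
    |(e * h).im| * σ ≤ 14 := by
  have g0 : 0 < ‖g‖ := s0.trans_le g1
  rw [norm_mul, he, one_mul] at a
  have i : (e * h).im * ‖g‖ ^ 2 = (e * g).im * ((starRingEnd ℂ) g * h).re +
      (e * g).re * ((starRingEnd ℂ) g * h).im := by
    rw [Complex.sq_norm, Complex.normSq_apply]; simp; ring
  have b1 : |((starRingEnd ℂ) g * h).re| ≤ ‖g‖ * (10 * σ) :=
    (Complex.abs_re_le_norm _).trans (by rw [norm_mul, Complex.norm_conj]; gcongr)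
  have b2 : |(e * g).re| ≤ ‖g‖ := (Complex.abs_re_le_norm _).trans (by rw [norm_mul, he, one_mul])
  have c : |(e * h).im| * ‖g‖ ^ 2 ≤ 1 / σ ^ 2 * ‖g‖ * (‖g‖ * (10 * σ)) + ‖g‖ * 4 := by
    rw [← abs_of_pos (pow_pos g0 2), ← abs_mul, i]
    refine (abs_add_le _ _).trans ?_
    rw [abs_mul, abs_mul]
    gcongr
  have d : |(e * h).im| * σ * ‖g‖ ≤ 10 * ‖g‖ + 4 * σ := by
    have : |(e * h).im| * σ * ‖g‖ = |(e * h).im| * ‖g‖ ^ 2 * (σ / ‖g‖) := by field_simp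
    rw [this]
    exact (mul_le_mul_of_nonneg_right c (by positivity)).trans (le_of_eq (by field_simp))
  exact le_of_mul_le_mul_right (by linarith) g0

lemma back (h : Fq p U E m) (hU : Function.Periodic U p) (hp : 0 < p)
    (z : ∀ n, th U E (n + 1) ≠ 0) (hb : ∀ n, |E - U n| ≤ 2) (y1 : 1 / 4 ≤ m.im) (y2 : m.im ≤ 4)
    (y3 : ‖m‖ ≤ 5) (D : ℝ) (F : ℕ → ℂ)
    (hF : ∀ n, F (n + 2) = ((E - U (n + 1 : ℕ) : ℝ) : ℂ) * F (n + 1) - F n) (F0 : ‖F 0‖ ≤ D)
    (F1 : ‖F 1‖ ≤ D) (W : ((starRingEnd ℂ) (F 0) * F 1).im = -1)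
    (big : ∃ n, 24 * D ≤ ‖fl U E m n‖) : ∃ n, ‖F n‖ ≤ 54 ∧ ‖F (n + 1)‖ ≤ 54 := by
  have y0 := h.1
  have yc : (m.im : ℂ) ≠ 0 := by exact_mod_cast y0.ne'
  obtain ⟨x, hx⟩ : ∃ x, x = (F 1 - (starRingEnd ℂ) m * F 0) / (2 * Complex.I * m.im) := ⟨_, rfl⟩
  obtain ⟨x', hx'⟩ : ∃ x, x = (m * F 0 - F 1) / (2 * Complex.I * m.im) := ⟨_, rfl⟩
  have cm : (starRingEnd ℂ) m = m - 2 * Complex.I * m.im := by apply Complex.ext <;> simp; ring
  have r0 : F 0 = x + x' := by rw [hx, hx', cm]; field_simp; ring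
  have r1 : F 1 = x * m + x' * (starRingEnd ℂ) m := by rw [hx, hx', cm]; field_simp; ring
  have rep : ∀ n, F n = x * fl U E m n + x' * (starRingEnd ℂ) (fl U E m n) := fun n =>
    uniq (fun n => ((E - U n : ℝ) : ℂ)) F
      (fun n => x * fl U E m n + x' * (starRingEnd ℂ) (fl U E m n)) n (fun n _ => hF n) (fun n _ => by
      rw [fl_add, map_sub, map_mul, Complex.conj_ofReal]; ring) (by simpa [fl, sol] using r0) r1 n
      le_rfl
  obtain ⟨σ, hσ⟩ : ∃ σ, σ = ‖x‖ + ‖x'‖ := ⟨_, rfl⟩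
  have w : (‖x'‖ - ‖x‖) * σ * m.im = 1 := by
    have a := Complex.sq_norm x
    have b := Complex.sq_norm x'
    rw [r0, r1] at W
    simp [Complex.normSq_apply] at W a b
    rw [hσ]
    linear_combination m.im * b - m.im * a - W
  have x0 := norm_nonneg x
  have x1 := norm_nonneg x'
  have d0 : 0 < (‖x'‖ - ‖x‖) * σ := pos_of_mul_pos_left (w ▸ one_pos) y0.le
  have d1 : (‖x'‖ - ‖x‖) * σ ≤ 4 := by nlinarith
  have s0 : 1 / 2 ≤ σ := by
    by_contra c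
    have : (‖x'‖ - ‖x‖) * σ < 1 / 4 := by nlinarith
    nlinarith
  have d2 : 0 ≤ ‖x'‖ - ‖x‖ := (pos_of_mul_pos_left d0 (by linarith)).le
  have s1 : σ ≤ 24 * D := by
    have D0 := (norm_nonneg _).trans F0
    have n : ‖(2 * Complex.I * m.im : ℂ)‖ = 2 * m.im := by simp [abs_of_pos y0]
    have a := mul_le_mul y3 F0 (norm_nonneg _) (by norm_num)
    have b1 := norm_sub_le (F 1) ((starRingEnd ℂ) m * F 0)
    have b2 := norm_sub_le (m * F 0) (F 1)
    rw [norm_mul] at b1 b2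
    rw [Complex.norm_conj] at b1
    rw [hσ, hx, hx', norm_div, norm_div, n, ← add_div, div_le_iff₀ (by positivity)]
    nlinarith
  obtain ⟨e, he, le⟩ : ∃ e : ℂ, ‖e‖ = 1 ∧ ‖x * (starRingEnd ℂ) e + x' * e‖ = ‖x'‖ - ‖x‖ := by
    obtain ⟨u, u1, u2⟩ := Complex.exists_norm_eq_mul_self ((starRingEnd ℂ) x * x')
    obtain ⟨e, he⟩ := IsAlgClosed.exists_pow_nat_eq (-u) two_pos
    have n : ‖e‖ = 1 := by
      rw [← sq_eq_sq₀ (norm_nonneg _) zero_le_one, ← norm_pow, he, norm_neg, u1, one_pow]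
    refine ⟨e, n, ?_⟩
    rw [← sq_eq_sq₀ (norm_nonneg _) d2, Complex.sq_norm, Complex.normSq_add, map_mul, map_mul,
      Complex.normSq_conj, ← Complex.sq_norm, ← Complex.sq_norm, ← Complex.sq_norm, n,
      ← Complex.conj_re, map_mul, map_mul, Complex.conj_conj, Complex.conj_conj,
      show (starRingEnd ℂ) x * e * (x' * e) = -(u * ((starRingEnd ℂ) x * x')) by
        linear_combination (starRingEnd ℂ) x * x' * he, ← u2]
    simp
    ring
  have L : ∀ g : ℂ, ‖g‖ ≤ 10 * σ → |(e * g).im| * σ ≤ 14 →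
      ‖x * g + x' * (starRingEnd ℂ) g‖ ≤ 54 := fun g g1 g2 => by
    have ee : e * (starRingEnd ℂ) e = 1 := by rw [Complex.mul_conj, ← Complex.sq_norm, he]; simp
    have a := Complex.re_add_im (e * g)
    have b := congrArg (starRingEnd ℂ) a
    simp only [map_add, map_mul, Complex.conj_ofReal, Complex.conj_I] at b
    rw [show x * g + x' * (starRingEnd ℂ) g = (e * g).re * (x * (starRingEnd ℂ) e + x' * e) +
      (e * g).im * (Complex.I * (x * (starRingEnd ℂ) e - x' * e)) by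
        linear_combination (-x * (starRingEnd ℂ) e) * a - x' * e * b -
          (x * g + x' * (starRingEnd ℂ) g) * ee]
    refine (norm_add_le _ _).trans ?_
    have c : ‖x * (starRingEnd ℂ) e - x' * e‖ ≤ σ := (norm_sub_le _ _).trans (by simp [he, hσ])
    have d : |(e * g).re| ≤ 10 * σ :=
      (Complex.abs_re_le_norm _).trans (by rwa [norm_mul, he, one_mul])
    rw [norm_mul, norm_mul, norm_mul, le, Complex.norm_I, one_mul, Complex.norm_real,
      Complex.norm_real, Real.norm_eq_abs, Real.norm_eq_abs]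
    nlinarith [abs_nonneg (e * g).im, mul_le_mul_of_nonneg_right d d2]
  obtain ⟨r, a1, a2, a3⟩ : ∃ r, (σ ≤ ‖fl U E m r‖ ∨ σ ≤ ‖fl U E m (r + 1)‖) ∧
      ‖fl U E m r‖ ≤ 10 * σ ∧ ‖fl U E m (r + 1)‖ ≤ 10 * σ := by
    have ex : ∃ n, σ ≤ ‖fl U E m n‖ := big.imp fun n hn => s1.trans hn
    have f0 : ‖fl U E m 0‖ ≤ 10 * σ := by simp [fl, sol]; linarith
    have f1 : ‖fl U E m (0 + 1)‖ ≤ 10 * σ := y3.trans (by linarith)
    have a := Nat.find_spec ex
    have b := fun n => Nat.find_min ex (m := n)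
    generalize Nat.find ex = r at a b
    obtain _ | _ | r := r
    · exact ⟨0, Or.inl a, f0, f1⟩
    · exact ⟨0, Or.inr a, f0, f1⟩
    · have b1 := not_le.1 (b r (by omega))
      have b2 := not_le.1 (b (r + 1) (by omega))
      refine ⟨r + 1, Or.inr a, by linarith, ?_⟩
      rw [fl_add]
      refine (norm_sub_le _ _).trans ?_
      rw [norm_mul, Complex.norm_real, Real.norm_eq_abs]
      nlinarith [hb (r + 1 : ℕ), norm_nonneg (fl U E m (r + 1))]
  have nn : ∀ j n, ‖fl U E m (j * p + n)‖ = ‖fl U E m n‖ := fun j n => by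
    rw [h.per hU, norm_mul, norm_pow, h.2.1, one_pow, one_mul]
  have k : ∀ n, ∃ j, |(e * fl U E m (j * p + n)).im| ≤ 1 / σ ^ 2 * ‖e * fl U E m (j * p + n)‖ :=
    fun n => (dens _ h.2.1 (h.nr hU hp z) (e * fl U E m n) (1 / σ ^ 2) (by positivity)).imp
      fun j hj => by rwa [norm_mul, nn, ← norm_mul, h.per hU, mul_left_comm]
  have k2 : ∀ g, ‖g‖ ≤ 10 * σ → |(e * g).im| ≤ 1 / σ ^ 2 * ‖e * g‖ → |(e * g).im| * σ ≤ 14 :=
    fun g g1 g2 => by
      rw [norm_mul, he, one_mul, one_div, le_inv_mul_iff₀ (by positivity)] at g2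
      nlinarith
  have w4 : ∀ n, |((starRingEnd ℂ) (fl U E m n) * fl U E m (n + 1)).im| ≤ 4 := fun n => by
    rwa [wr, abs_of_pos y0]
  rcases a1 with a1 | a1
  · obtain ⟨j, hj⟩ := k r
    rw [← nn j] at a1 a2 a3
    exact ⟨j * p + r, rep _ ▸ L _ a2 (k2 _ a2 hj), rep _ ▸ L _ a3
      (other e _ _ σ he (by linarith) a1 a3 (w4 _) hj)⟩
  · obtain ⟨j, hj⟩ := k (r + 1)
    rw [← nn j] at a1 a2 a3
    refine ⟨j * p + r, rep _ ▸ L _ a2 (other e _ _ σ he (by linarith) a1 a2 ?_ hj),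
      rep _ ▸ L _ a3 (k2 _ a3 hj)⟩
    have := w4 (j * p + r)
    rw [← abs_neg, ← Complex.conj_im, map_mul, Complex.conj_conj, mul_comm] at this
    exact this

end Pool.Agent.H.MP_dd0251_mp
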