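import Mathlib
import Pool.Agent.H.MP_dd0251_mp.A

namespace Pool.Agent.H.MP_dd0251_mp

open Filter Topology Set Finset MeasureTheory Pool.Agent.H.MP_3ab43d_mp

lemma ybd {y : ℝ} (y0 : 0 < y) (h : y + y⁻¹ ≤ 4) : 1 / 4 ≤ y ∧ y ≤ 4 ∧ 2 ≤ y + y⁻¹ := by
  have a := inv_pos.2 y0
  have b := mul_inv_cancel₀ y0.ne'
  refine ⟨by nlinarith, by linarith, by nlinarith [sq_nonneg (y - 1), sq_nonneg (y - y⁻¹)]⟩

noncomputable def tt (y : ℝ) (M : ℂ) (d : ℝ) : ℝ := d ^ 2 / (4 * y ^ 2) + d * M.re / (y * M.im)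

noncomputable def YY (y : ℝ) (M : ℂ) (d : ℝ) : ℝ := √(y ^ 2 - d ^ 2 / 4 - d * M.re * y / M.im)

lemma sq1 {M : ℂ} (h : ‖M‖ = 1) : M.re ^ 2 + M.im ^ 2 = 1 := by
  rw [sq, sq, ← Complex.normSq_apply, Complex.normSq_eq_norm_sq, h]; simp

lemma pw1 {y δ d : ℝ} {M : ℂ} (y0 : 0 < y) (h : y + y⁻¹ ≤ 4) (d0 : 0 < δ) (d1 : δ ≤ 1 / 32)
    (hM : ‖M‖ = 1) (hs : 16 * δ ≤ |M.im|) (hd : |d| = δ) :
    |tt y M d| ≤ 1 / 2 ∧ 0 < YY y M d ∧ YY y M d ^ 2 = y ^ 2 * (1 - tt y M d) ∧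
      YY y M d ^ 2 = y ^ 2 - d ^ 2 / 4 - d * M.re * y / M.im := by
  obtain ⟨y1, -, -⟩ := ybd y0 h
  have s0 : 0 < |M.im| := by linarith
  have s1 := abs_pos.1 s0
  have a : |tt y M d| ≤ 1 / 2 := by
    refine (abs_add_le _ _).trans ?_
    have c : |M.re| ≤ 1 := (Complex.abs_re_le_norm _).trans hM.le
    have b1 : |d ^ 2 / (4 * y ^ 2)| ≤ 1 / 4 := by
      rw [abs_of_nonneg (by positivity), ← sq_abs d, hd, div_le_iff₀ (by positivity)]; nlinarith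
    have b2 : |d * M.re / (y * M.im)| ≤ 1 / 4 := by
      rw [abs_div, abs_mul, abs_mul, hd, abs_of_pos y0, div_le_iff₀ (by positivity)]; nlinarith
    linarith
  have e : y ^ 2 - d ^ 2 / 4 - d * M.re * y / M.im = y ^ 2 * (1 - tt y M d) := by
    rw [tt]; field_simp; ring
  have p : 0 < y ^ 2 * (1 - tt y M d) := mul_pos (by positivity) (by linarith [(abs_le.1 a).2])
  rw [YY, Real.sq_sqrt (e ▸ p.le)]
  exact ⟨a, Real.sqrt_pos.2 (e ▸ p), e, rfl⟩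

lemma pw2 {y Y t : ℝ} (y0 : 0 < y) (Y0 : 0 < Y) (ht : |t| ≤ 1 / 2) (e : Y ^ 2 = y ^ 2 * (1 - t)) :
    Y ≤ y * (1 - t / 2) ∧ Y⁻¹ ≤ y⁻¹ * (1 + t / 2 + t ^ 2) := by
  obtain ⟨t1, t2⟩ := abs_le.1 ht
  refine ⟨abs_le_of_sq_le_sq' (by nlinarith [sq_nonneg (y * t)])
    (mul_nonneg y0.le (by linarith)) |>.2, ?_⟩
  have p : 0 < 1 + t / 2 + t ^ 2 := by nlinarith [sq_nonneg t]
  rw [inv_mul_eq_div, le_div_iff₀ y0, inv_mul_le_iff₀ Y0]
  refine (abs_le_of_sq_le_sq' ?_ (by positivity)).2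
  have : 0 ≤ t ^ 2 * (5 / 4 - 5 / 4 * t - t ^ 3) :=
    mul_nonneg (sq_nonneg t) (by nlinarith [sq_nonneg t])
  rw [mul_pow, e]
  nlinarith [mul_nonneg (sq_nonneg y) this]

lemma pw3 {y δ : ℝ} {M : ℂ} (y0 : 0 < y) (h : y + y⁻¹ ≤ 4) (d0 : 0 < δ) (d1 : δ ≤ 1 / 32)
    (hM : ‖M‖ = 1) (hs : 16 * δ ≤ |M.im|) :
    YY y M δ + (YY y M δ)⁻¹ + (YY y M (-δ) + (YY y M (-δ))⁻¹) ≤
      2 * (y + y⁻¹) + 160 * (δ ^ 2 / M.im ^ 2) ∧
    δ / 2 * (|M.im|⁻¹ - 1) ≤ |tt y M δ| + |tt y M (-δ)| := by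
  obtain ⟨y1, y2, -⟩ := ybd y0 h
  obtain ⟨a1, a2, a3, -⟩ := pw1 y0 h d0 d1 hM hs (abs_of_pos d0)
  obtain ⟨b1, b2, b3, -⟩ := pw1 y0 h d0 d1 hM hs (d := -δ) (by rw [abs_neg, abs_of_pos d0])
  obtain ⟨a4, a5⟩ := pw2 y0 a2 a1 a3
  obtain ⟨b4, b5⟩ := pw2 y0 b2 b1 b3
  have s0 : 0 < |M.im| := by linarith
  have s1 := abs_pos.1 s0
  have s2 := sq1 hM
  obtain ⟨u, hu⟩ : ∃ u, u = δ ^ 2 / (4 * y ^ 2) := ⟨_, rfl⟩
  obtain ⟨v, hv⟩ : ∃ v, v = δ * M.re / (y * M.im) := ⟨_, rfl⟩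
  have e1 : tt y M δ = u + v := by rw [hu, hv, tt]
  have e2 : tt y M (-δ) = u - v := by rw [hu, hv, tt]; ring
  rw [e1] at a4 a5 ⊢
  rw [e2] at b4 b5 ⊢
  constructor
  · have u0 : 0 ≤ u := by rw [hu]; positivity
    have u1 : u ≤ 4 * δ ^ 2 := by
      rw [hu, div_le_iff₀ (by positivity)]
      nlinarith [mul_le_mul_of_nonneg_left (show 1 ≤ 16 * y ^ 2 by nlinarith) (sq_nonneg δ)]
    have u2 : δ ^ 2 ≤ δ ^ 2 / M.im ^ 2 :=
      le_div_self (sq_nonneg _) (by positivity) (by nlinarith [sq_nonneg M.re])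
    have v1 : v ^ 2 ≤ 16 * (δ ^ 2 / M.im ^ 2) := by
      have : v ^ 2 = δ ^ 2 / M.im ^ 2 * (M.re ^ 2 / y ^ 2) := by rw [hv]; field_simp
      rw [this, mul_comm]
      gcongr
      rw [div_le_iff₀ (by positivity)]
      nlinarith [sq_nonneg M.im]
    have y3 : y⁻¹ ≤ 4 := by linarith
    have u4 : u ≤ 1 / 2 := by nlinarith
    have u3 : u ^ 2 ≤ u / 2 := by nlinarith
    have : y⁻¹ * (u + 2 * u ^ 2 + 2 * v ^ 2) ≤ 4 * (u + 2 * u ^ 2 + 2 * v ^ 2) := by gcongr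
    nlinarith [mul_nonneg y0.le u0]
  · have a : 2 * |v| ≤ |u + v| + |u - v| := by
      have := abs_sub (u + v) (u - v)
      rwa [show u + v - (u - v) = 2 * v by ring, abs_mul, abs_two] at this
    refine le_trans ?_ a
    have c : 1 - |M.im| ≤ |M.re| := by
      by_contra c
      nlinarith [sq_abs M.re, sq_abs M.im, abs_nonneg M.re]
    have : |v| = δ * |M.re| / (y * |M.im|) := by
      rw [hv, abs_div, abs_mul, abs_mul, abs_of_pos d0, abs_of_pos y0]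
    rw [this, show δ / 2 * (|M.im|⁻¹ - 1) = 2 * (δ * (1 - |M.im|) / (4 * |M.im|)) by
      field_simp; ring]
    gcongr

lemma Po_nn {w : ℝ} (w0 : 0 < w) (w1 : w ≤ 1) (s : ℝ) : 0 ≤ Po w s ∧ Po w s ≤ 2 / w := by
  have : 0 ≤ 1 - w := by linarith
  have : 0 ≤ 2 - w := by linarith
  refine ⟨by unfold Po; positivity, ?_⟩
  rw [Po, div_le_div_iff₀ (by positivity) w0]
  nlinarith [mul_nonneg ‹0 ≤ 1 - w› (sq_nonneg s), pow_pos w0 3]

lemma Po_low {w : ℝ} (w0 : 0 < w) (w1 : w ≤ 1) (s u : ℝ) (h1 : w ≤ u) (h2 : |s| ≤ u) :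
    w / (5 * u ^ 2) ≤ Po w s := by
  have : 0 ≤ 1 - w := by linarith
  have a : s ^ 2 ≤ u ^ 2 := by rw [← sq_abs s]; gcongr
  have b : w ^ 2 ≤ u ^ 2 := by gcongr
  exact div_le_div₀ (by nlinarith) (by nlinarith) (by positivity) (by nlinarith [sq_nonneg s])

lemma Po_sum {κ : ℝ} (k0 : 0 < κ) (s : ℝ) (n : ℕ) (hn : 2 ^ n * κ ≤ 1 / 2) :
    ∑ i ∈ range n, Po (2 ^ i * κ) s ≤ 16 / max |s| κ := by
  obtain ⟨u, hu⟩ : ∃ u, u = max |s| κ := ⟨_, rfl⟩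
  have u0 : 0 < u := hu ▸ k0.trans_le (le_max_right _ _)
  rw [← hu]
  have t := sum_range_sub (fun i => 16 / u * (2 ^ i * κ / (2 ^ i * κ + u))) n
  refine (sum_le_sum fun i hi => ?_).trans (t.trans_le ?_)
  · have w1 : 2 ^ i * κ ≤ 1 / 2 := le_trans (by gcongr; exacts [one_le_two, (mem_range.1 hi).le]) hn
    have w2 : κ ≤ 2 ^ i * κ := le_mul_of_one_le_left k0.le (one_le_pow₀ one_le_two)
    rw [pow_succ, mul_right_comm]
    generalize 2 ^ i * κ = w at *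
    have w0 := k0.trans_le w2
    have : 0 ≤ 1 - w := by linarith
    have e : 16 / u * (w * 2 / (w * 2 + u)) - 16 / u * (w / (w + u)) =
        16 * w / ((w * 2 + u) * (w + u)) := by field_simp; ring
    have a : u ^ 2 ≤ w ^ 2 + s ^ 2 := by
      rcases max_choice |s| κ with c | c <;> rw [hu, c]
      · rw [sq_abs]; linarith [sq_nonneg w]
      · nlinarith [sq_nonneg s]
    rw [e, Po, div_le_div_iff₀ (by positivity) (by positivity)]
    have b : (w * 2 + u) * (w + u) ≤ 8 * (w ^ 2 + 4 * (1 - w) * s ^ 2) := by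
      nlinarith [sq_nonneg (w - u), sq_nonneg s]
    have c : w * (2 - w) ≤ 2 * w := by nlinarith
    calc _ ≤ 2 * w * (8 * (w ^ 2 + 4 * (1 - w) * s ^ 2)) := by gcongr
      _ = _ := by ring
  · refine (sub_le_self _ (by positivity)).trans (mul_le_of_le_one_right (by positivity) ?_)
    exact div_le_one_of_le₀ (by linarith) (by positivity)

lemma grow {y Y t d a : ℝ} (y0 : 0 < y) (Y0 : 0 < Y) (ht : |t| ≤ 1 / 2) (hd : |d| ≤ 2 * y)
    (e : Y ^ 2 = y ^ 2 * (1 - t)) (a0 : 0 ≤ a) (f g : ℂ) (θ φ : ℝ) (h1 : f.im = y * θ)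
    (h2 : g.im = y * φ) (c1 : a * y ≤ f.re ^ 2 - 2 * |f.re * f.im|) (c2 : a * y ≤ g.im ^ 2) :
    (1 + |t| / 4) * a * Y ≤ ‖f + ⟨d / 2, Y - y⟩ * θ‖ ^ 2 ∨
      (1 + |t| / 4) * a * Y ≤ ‖g + ⟨d / 2, Y - y⟩ * φ‖ ^ 2 := by
  simp only [Complex.sq_norm, Complex.normSq_apply, Complex.add_re, Complex.add_im, Complex.mul_re,
    Complex.mul_im, Complex.ofReal_re, Complex.ofReal_im, h1, h2] at *
  rcases le_total 0 t with c | c
  · left
    have b := (pw2 y0 Y0 ht e).1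
    have b1 : (1 + |t| / 4) * Y ≤ y := by
      rw [abs_of_nonneg c]
      nlinarith [mul_nonneg y0.le c, mul_nonneg (mul_nonneg y0.le c) c]
    have b2 : |f.re * θ * d| ≤ 2 * |f.re * (y * θ)| := by
      rw [mul_left_comm f.re, abs_mul, abs_mul y, abs_of_pos y0]
      nlinarith [abs_nonneg (f.re * θ)]
    nlinarith [neg_abs_le (f.re * θ * d), mul_le_mul_of_nonneg_left b1 a0, sq_nonneg (d * θ),
      sq_nonneg (Y * θ)]
  · right
    have b1 : (1 + |t| / 4) * y ≤ Y := by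
      refine (abs_le_of_sq_le_sq' ?_ Y0.le).2
      rw [abs_of_nonpos c] at ht ⊢
      rw [mul_pow, e, mul_comm]
      gcongr
      nlinarith
    have b2 : a ≤ y * φ ^ 2 := le_of_mul_le_mul_right (by linarith) y0
    have b3 : (1 + |t| / 4) * a * Y ≤ (1 + |t| / 4) * (y * φ ^ 2) * Y := by gcongr
    have b4 := mul_le_mul_of_nonneg_right b1 (mul_nonneg Y0.le (sq_nonneg φ))
    nlinarith [mul_self_nonneg (g.re + (d / 2 * φ - (Y - y) * 0))]

lemma pick (A : ℕ → ℝ) (c ε : ℝ) (hε : 0 < ε) (J : ℕ)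
    (h : Tendsto (fun n : ℕ => (n : ℝ)⁻¹ * ∑ N ∈ range n, A N) atTop (𝓝 c)) :
    ∃ N, J ≤ N ∧ A N ≤ c + ε := by
  by_contra hc
  push Not at hc
  have t : Tendsto (fun N => min (A N) (c + ε)) atTop (𝓝 (c + ε)) := tendsto_const_nhds.congr' (by
    filter_upwards [eventually_ge_atTop J] with N hN using (min_eq_right (hc N hN).le).symm)
  have := le_of_tendsto_of_tendsto' t.cesaro h fun n => by gcongr; exact min_le_left _ _
  linarith

lemma avg (ν : Measure ℝ) [IsFiniteMeasure ν] (μ : ℝ → ℂ) (hμ : Measurable μ) (S : Set ℝ)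
    (hS : MeasurableSet S) (h : ∀ᵐ E ∂ν, E ∈ S → ‖μ E‖ = 1 ∧ ∀ q, 1 ≤ q → (μ E ^ q).im ≠ 0)
    (w : ℝ) (w0 : 0 < w) (w1 : w ≤ 1) :
    (∀ N, Integrable (S.indicator fun E => Po w (μ E ^ N).im) ν) ∧
    Tendsto (fun n : ℕ => (n : ℝ)⁻¹ * ∑ N ∈ range n,
      ∫ E, S.indicator (fun E => Po w (μ E ^ N).im) E ∂ν) atTop (𝓝 (ν.real S)) := by
  have me : ∀ N, Measurable fun E => Po w (μ E ^ N).im := fun N => by unfold Po; fun_prop
  have bd : ∀ s, ‖Po w s‖ ≤ 2 / w := fun s => by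
    rw [Real.norm_of_nonneg (Po_nn w0 w1 s).1]; exact (Po_nn w0 w1 s).2
  have i : ∀ N, Integrable (fun E => Po w (μ E ^ N).im) (ν.restrict S) := fun N =>
    .of_bound (me N).aestronglyMeasurable _ (Eventually.of_forall fun E => bd _)
  refine ⟨fun N => (integrable_indicator_iff hS).2 (i N), ?_⟩
  have := tendsto_integral_of_dominated_convergence (μ := ν.restrict S) (f := fun _ => (1 : ℝ))
    (F := fun (n : ℕ) E => (n : ℝ)⁻¹ * ∑ N ∈ range n, Po w (μ E ^ N).im) (fun _ => 2 / w)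
    (fun n => ((Finset.measurable_sum _ fun N _ => me N).const_mul _).aestronglyMeasurable)
    (integrable_const _) (fun n => Eventually.of_forall fun E => by
      rw [norm_mul, norm_inv, Real.norm_natCast]
      exact inv_mul_le_of_le_mul₀ (by positivity) (by positivity) ((norm_sum_le _ _).trans
        ((sum_le_card_nsmul _ _ _ fun N _ => bd _).trans (by simp [mul_comm]))))
    ((ae_restrict_iff' hS).2 (h.mono fun E hE a => by
      simpa using weyl w w0 w1 1 (μ E) norm_one (hE a).1 (hE a).2))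
  simp only [integral_const, measureReal_restrict_apply_univ, smul_eq_mul, mul_one] at this
  refine this.congr fun n => ?_
  rw [integral_const_mul, integral_finset_sum _ fun N _ => i N]
  simp only [integral_indicator hS]

lemma nz (U : ℤ → ℝ) : ∀ᵐ E, ∀ n, th U E (n + 1) ≠ 0 := ae_all_iff.2 fun n => by
  rw [ae_iff]
  have t : Tendsto (fun r : ℝ => ENNReal.ofReal (2 * r * (n + 1))) (𝓝[>] 0)
      (𝓝 (ENNReal.ofReal (2 * 0 * (n + 1)))) :=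
    (ENNReal.continuous_ofReal.comp (by fun_prop)).continuousWithinAt
  rw [mul_zero, zero_mul, ENNReal.ofReal_zero] at t
  refine le_zero_iff.1 (ge_of_tendsto t ?_)
  filter_upwards [Ioc_mem_nhdsGT one_pos] with r hr
  exact (measure_mono fun E hE => by simpa [not_not.1 hE] using hr.1).trans (vol_bad U n r hr.1 hr.2)

lemma fl_meas (U : ℤ → ℝ) {m : ℝ → ℂ} (hm : Measurable m) (n : ℕ) :
    Measurable fun E => fl U E (m E) n := by
  induction n using Nat.twoStepInduction with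
  | zero => exact measurable_const
  | one => exact hm
  | more n a b => simp only [fl_add]; fun_prop

end Pool.Agent.H.MP_dd0251_mp
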