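import Mathlib
import Pool.Agent.H.MP_dd0251_mp.B

namespace Pool.Agent.H.MP_dd0251_mp

open Filter Topology Set Finset MeasureTheory Pool.Agent.H.MP_3ab43d_mp

structure St (k : ℕ) (δ L : ℝ) (p : ℕ) (U : ℤ → ℝ) (G : Set ℝ) (m : ℝ → ℂ) (l : ℝ → ℝ) : Prop where
  p0 : 0 < p
  per : Function.Periodic U p
  ub : ∀ n, |U n| ≤ k * δ
  mG : MeasurableSet G
  mm : Measurable m
  ml : Measurable l
  l0 : ∀ E, 0 ≤ l E ∧ l E ≤ L
  fq : ∀ E ∈ G, Fq p U E (m E) ∧ (m E).im + (m E).im⁻¹ ≤ 4 ∧ |(m E).re| ≤ 1 / 2 + k * δ ∧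
    ∃ n, (1 + l E) * (1 - k * δ) * (m E).im ≤ ‖fl U E (m E) n‖ ^ 2

open Classical in
noncomputable def psi (γ : ℝ) (G : Set ℝ) (m : ℝ → ℂ) (l : ℝ → ℝ) (E : ℝ) : ℝ :=
  (if E ∈ G then (m E).im + (m E).im⁻¹ else 4) - γ * l E

noncomputable abbrev ν : Measure ℝ := volume.restrict (Icc 0 1)

variable {k p : ℕ} {δ L γ : ℝ} {U : ℤ → ℝ} {G : Set ℝ} {m : ℝ → ℂ} {l : ℝ → ℝ}

lemma St.int (h : St k δ L p U G m l) (γ : ℝ) : Integrable (psi γ G m l) ν := by
  have := h.mm
  have := h.ml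
  refine .sub (.of_bound (Measurable.ite h.mG (by fun_prop) measurable_const).aestronglyMeasurable
    4 (Eventually.of_forall fun E => ?_)) (.const_mul (.of_bound h.ml.aestronglyMeasurable L
    (Eventually.of_forall fun E => by rw [Real.norm_of_nonneg (h.l0 E).1]; exact (h.l0 E).2)) γ)
  split_ifs with c
  · have := (h.fq E c).1.1
    rw [Real.norm_of_nonneg (by positivity)]
    exact (h.fq E c).2.1
  · simp

def Al (U : ℤ → ℝ) (m : ℝ → ℂ) (a : ℝ → ℝ) (J : ℕ) : Set ℝ :=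
  {E | ∃ n ≤ J, a E ≤ (fl U E (m E) n).re ^ 2 - 2 * |(fl U E (m E) n).re * (fl U E (m E) n).im|} ∩
    {E | ∃ n ≤ J, a E ≤ (fl U E (m E) n).im ^ 2}

lemma Al_meas (U : ℤ → ℝ) (hm : Measurable m) {a : ℝ → ℝ} (ha : Measurable a) (J : ℕ) :
    MeasurableSet (Al U m a J) := by
  have := fl_meas U hm
  refine .inter ?_ ?_ <;> rw [setOf_exists] <;>
    exact .iUnion fun n => .inter (.const _) (measurableSet_le ha (by fun_prop))

lemma St.al (h : St k δ L p U G m l) (d0 : 0 < δ) (hk : (k + 1) * δ ≤ 1 / 2) :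
    ∃ J, ν.real (G \ Al U m (fun E => (1 + l E) * (1 - (k + 1) * δ) * (m E).im) J) ≤ δ := by
  have := h.mm
  have := h.ml
  have t := tendsto_measure_iInter_atTop (μ := ν)
    (s := fun J => G \ Al U m (fun E => (1 + l E) * (1 - (k + 1) * δ) * (m E).im) J)
    (fun J => (h.mG.diff (Al_meas U h.mm (by fun_prop) J)).nullMeasurableSet)
    (fun a b hab => diff_subset_diff_right fun E ⟨⟨n, a1, a2⟩, n', b1, b2⟩ =>
      ⟨⟨n, a1.trans hab, a2⟩, n', b1.trans hab, b2⟩) ⟨0, measure_ne_top _ _⟩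
  rw [measure_mono_null (fun E hE hz => ?_) (ae_restrict_of_ae (nz U))] at t
  · obtain ⟨J, hJ⟩ := (t.eventually_le_const (ENNReal.ofReal_pos.2 d0)).exists
    exact ⟨J, ENNReal.toReal_le_of_le_ofReal d0.le hJ⟩
  obtain ⟨f, -, -, n, hn⟩ := h.fq E (mem_iInter.1 hE 0).1
  have nn : ∀ j, fl U E (m E) p ^ j * fl U E (m E) n = fl U E (m E) (j * p + n) ∧
      ‖fl U E (m E) (j * p + n)‖ = ‖fl U E (m E) n‖ := fun j => by
    rw [f.per h.per, norm_mul, norm_pow, f.2.1, one_pow, one_mul]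
    exact ⟨rfl, rfl⟩
  obtain ⟨i, hi⟩ := dens _ f.2.1 (f.nr h.per h.p0 hz) (fl U E (m E) n) (δ / 3) (by positivity)
  obtain ⟨j, hj⟩ := dens _ f.2.1 (f.nr h.per h.p0 hz) (fl U E (m E) n * Complex.I) (δ / 3)
    (by positivity)
  rw [(nn i).1] at hi
  rw [← mul_assoc, (nn j).1, norm_mul, Complex.norm_I, mul_one, Complex.mul_I_im] at hj
  have k0 : 0 ≤ k * δ := by positivity
  have a : (1 + l E) * (1 - (k + 1) * δ) * (m E).im ≤ (1 - δ) * ‖fl U E (m E) n‖ ^ 2 := by
    refine le_trans ?_ (mul_le_mul_of_nonneg_left hn (by linarith))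
    have := mul_nonneg (mul_nonneg (add_nonneg zero_le_one (h.l0 E).1) f.1.le) (mul_nonneg k0 d0.le)
    nlinarith
  refine (mem_iInter.1 hE (i * p + n + (j * p + n))).2 ⟨⟨i * p + n, by omega, a.trans ?_⟩,
    j * p + n, by omega, a.trans ?_⟩
  · rw [← (nn i).2] at hi ⊢
    generalize fl U E (m E) (i * p + n) = g at *
    have b := mul_le_mul (Complex.abs_re_le_norm g) hi (abs_nonneg _) (norm_nonneg _)
    have c := mul_self_le_mul_self (abs_nonneg _) hi
    have e := Complex.sq_norm g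
    rw [Complex.normSq_apply] at e
    rw [abs_mul_abs_self] at c
    rw [abs_mul]
    nlinarith [mul_le_mul_of_nonneg_right (show δ / 3 * (δ / 3) ≤ δ / 3 by nlinarith) (sq_nonneg ‖g‖)]
  · rw [← (nn j).2] at hj ⊢
    generalize fl U E (m E) (j * p + n) = g at *
    have c := mul_self_le_mul_self (abs_nonneg _) hj
    have e := Complex.sq_norm g
    rw [Complex.normSq_apply] at e
    rw [abs_mul_abs_self] at c
    nlinarith [mul_le_mul_of_nonneg_right (show δ / 3 * (δ / 3) ≤ δ by nlinarith) (sq_nonneg ‖g‖)]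

lemma St.new (h : St k δ L p U G m l) (d0 : 0 < δ) (d1 : δ ≤ 1 / 32) (hk : (k + 1) * δ ≤ 1 / 2)
    {J N : ℕ} (hN : J + 1 ≤ N) {d : ℝ} (hd : |d| = δ) :
    St (k + 1) δ L (N * p) (fun n => if ((N * p : ℕ) : ℤ) ∣ n then U n - d else U n)
      {E | E ∈ G ∩ Al U m (fun E => (1 + l E) * (1 - (k + 1) * δ) * (m E).im) J ∧
        16 * δ ≤ |(fl U E (m E) p ^ N).im| ∧ YY (m E).im (fl U E (m E) p ^ N) d +
          (YY (m E).im (fl U E (m E) p ^ N) d)⁻¹ ≤ 4}
      (fun E => m E + ⟨d / 2, YY (m E).im (fl U E (m E) p ^ N) d - (m E).im⟩)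
      fun E => min L (l E + |tt (m E).im (fl U E (m E) p ^ N) d| / 4) := by
  have := h.mm
  have := h.ml
  have := fl_meas U h.mm p
  have mY : Measurable fun E => YY (m E).im (fl U E (m E) p ^ N) d := by unfold YY; fun_prop
  have p1 : N ≤ N * p := Nat.le_mul_of_pos_right _ h.p0
  refine ⟨by omega, fun n => ?_, fun n => ?_, .inter (h.mG.inter (Al_meas U h.mm (by fun_prop) J))
    (.inter (measurableSet_le measurable_const
      (by fun_prop : Measurable fun E => |(fl U E (m E) p ^ N).im|))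
      (measurableSet_le (mY.add mY.inv) measurable_const)), ?_, by unfold tt; fun_prop,
    fun E => ⟨le_min ((h.l0 E).1.trans (h.l0 E).2) (by have := (h.l0 E).1; positivity),
      min_le_left _ _⟩, ?_⟩
  · simp only [dvd_add_self_right]
    rw [Nat.cast_mul, h.per.nat_mul N n]
  · push_cast
    split_ifs
    · linarith [abs_sub (U n) d, h.ub n]
    · linarith [h.ub n]
  · simp only [Complex.mk_eq_add_mul_I]
    fun_prop
  rintro E ⟨⟨hE, ⟨n1, a1, a2⟩, n2, b1, b2⟩, hs, hY⟩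
  obtain ⟨f, f1, f2, -⟩ := h.fq E hE
  have hM : ‖fl U E (m E) p ^ N‖ = 1 := by rw [norm_pow, f.2.1, one_pow]
  obtain ⟨c1, c2, c3, c4⟩ := pw1 f.1 f1 d0 d1 hM hs hd
  have g := f.mul h.per N
  have e := f.pow h.per N
  obtain ⟨q, hq⟩ : ∃ q, N * p = q + 1 := ⟨N * p - 1, by omega⟩
  simp only [← e, hq] at hs hY c1 c2 c3 c4 g p1 ⊢
  obtain ⟨r1, r2⟩ := g.pert (fun n => if ((q + 1 : ℕ) : ℤ) ∣ n then U n - d else U n) d _
    (fun n hn => if_neg fun c => absurd (Int.le_of_dvd (by positivity) c) (by omega))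
    (if_pos dvd_rfl) (abs_pos.1 (by linarith)) c2 c4
  refine ⟨r1, by simpa using hY, ?_, ?_⟩
  · simp only [Complex.add_re]
    push_cast
    linarith [abs_add_le (m E).re (d / 2), abs_div d 2, abs_two (α := ℝ), show |d| / |2| = δ / 2 by
      rw [hd, abs_two]]
  · have l0 := (h.l0 E).1
    have k0 : 0 ≤ 1 - (k + 1) * δ := by linarith
    have u : ∀ x, (1 + |tt (m E).im (fl U E (m E) (q + 1)) d| / 4) * ((1 + l E) * (1 - (k + 1) * δ)) *
        YY (m E).im (fl U E (m E) (q + 1)) d ≤ x →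
        (1 + min L (l E + |tt (m E).im (fl U E (m E) (q + 1)) d| / 4)) * (1 - (k + 1 : ℕ) * δ) *
        (m E + ⟨d / 2, YY (m E).im (fl U E (m E) (q + 1)) d - (m E).im⟩).im ≤ x := fun x hx => by
      refine le_trans ?_ hx
      simp only [Complex.add_im, add_sub_cancel, ← mul_assoc]
      push_cast
      gcongr
      nlinarith [min_le_right L (l E + |tt (m E).im (fl U E (m E) (q + 1)) d| / 4),
        mul_nonneg l0 (abs_nonneg (tt (m E).im (fl U E (m E) (q + 1)) d))]
    rcases grow (d := d) f.1 c2 c1 (by linarith [(ybd f.1 f1).1]) c3 (by positivity) _ _ _ _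
      (fl_im U E _ n1) (fl_im U E _ n2) a2 b2 with c | c
    · exact ⟨n1, u _ (by rwa [r2 n1 (by omega)])⟩
    · exact ⟨n2, u _ (by rwa [r2 n2 (by omega)])⟩

lemma St.step (h : St k δ L p U G m l) (d0 : 0 < δ) (n : ℕ) (hn : 2 ^ n * (16 * δ) ≤ 1 / 2)
    (hk : (k + 1) * δ ≤ 1 / 2) (g0 : 0 ≤ γ) (g1 : γ ≤ 1) :
    ∃ p' U' G' m' l', St (k + 1) δ L p' U' G' m' l' ∧ G' ⊆ G ∧ (∀ E, l E ≤ l' E) ∧
      ∫ E, psi γ G' m' l' E ∂ν ≤ ∫ E, psi γ G m l E ∂ν + 165 * δ -
        γ * δ / 256 * n * (ν.real (G ∩ {E | l E ≤ L - 1}) - δ) := by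
  classical
  have := h.mm
  have := h.ml
  have w1 : ∀ i ≤ n, 2 ^ i * (16 * δ) ≤ 1 / 2 := fun i hi =>
    le_trans (by gcongr; exact one_le_two) hn
  have d1 : δ ≤ 1 / 32 := by have := w1 0 n.zero_le; linarith
  obtain ⟨J, hJ⟩ := h.al d0 hk
  have mA := Al_meas U h.mm (a := fun E => (1 + l E) * (1 - (k + 1) * δ) * (m E).im) (by fun_prop) J
  have new := fun N hN d hd => h.new d0 d1 hk (J := J) (N := N) hN (d := d) hd
  generalize Al U m (fun E => (1 + l E) * (1 - (k + 1) * δ) * (m E).im) J = A at hJ mA new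
  have mS : MeasurableSet (G ∩ {E | l E ≤ L - 1} ∩ A) :=
    (h.mG.inter (measurableSet_le h.ml measurable_const)).inter mA
  have av := fun S hS (s : S ⊆ G) => avg ν _ (fl_meas U h.mm p) S hS
    ((ae_restrict_of_ae (nz U)).mono fun E z c =>
      ⟨(h.fq E (s c)).1.2.1, (h.fq E (s c)).1.nr h.per h.p0 z⟩)
  have a1 := av G h.mG Subset.rfl (16 * δ) (by positivity) (by linarith)
  have a2 := fun i (hi : i ∈ range n) => av _ mS (fun _ c => c.1.1) (2 ^ i * (16 * δ))
    (by positivity) (by linarith [w1 i (mem_range.1 hi).le])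
  obtain ⟨N, hN, b⟩ := pick (fun N => 161 * δ *
      ∫ E, G.indicator (fun E => Po (16 * δ) (fl U E (m E) p ^ N).im) E ∂ν - γ * δ / 256 *
      ∑ i ∈ range n, ∫ E, (G ∩ {E | l E ≤ L - 1} ∩ A).indicator
        (fun E => Po (2 ^ i * (16 * δ)) (fl U E (m E) p ^ N).im) E ∂ν) _ δ d0 (J + 1)
    (((a1.2.const_mul (161 * δ)).sub ((tendsto_finset_sum _ fun i hi => (a2 i hi).2).const_mul
      (γ * δ / 256))).congr fun M => by
        rw [sum_sub_distrib, ← mul_sum, ← mul_sum, ← mul_sum, sum_comm]; ring)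
  have s1 := new N hN δ (abs_of_pos d0)
  have s2 := new N hN (-δ) (by rw [abs_neg, abs_of_pos d0])
  have i1 := (a1.1 N).const_mul (161 * δ)
  have i2 := (integrable_finset_sum _ fun i hi => (a2 i hi).1 N).const_mul (γ * δ / 256)
  have i3 : Integrable ((G \ A).indicator fun _ => (2 : ℝ)) ν :=
    (integrable_const _).indicator (h.mG.diff mA)
  have key := integral_mono ((s1.int γ).add (s2.int γ)) ((((((h.int γ).add (i1.sub i2)).add
    (integrable_const δ)).add i3)).const_mul 2) fun E => ?_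
  · rw [integral_add' (s1.int γ) (s2.int γ), integral_const_mul,
      integral_add' (((h.int γ).add (i1.sub i2)).add (integrable_const δ)) i3,
      integral_add' ((h.int γ).add (i1.sub i2)) (integrable_const δ),
      integral_add' (h.int γ) (i1.sub i2), integral_sub' i1 i2, integral_const_mul, integral_const_mul,
      integral_finset_sum _ fun i hi => (a2 i hi).1 N, integral_indicator_const _ (h.mG.diff mA),
      integral_const] at key
    have c1 : ν.real G ≤ 1 := by simpa using measureReal_mono (μ := ν) (subset_univ G)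
    have c2 : ν.real (G ∩ {E | l E ≤ L - 1}) - δ ≤ ν.real (G ∩ {E | l E ≤ L - 1} ∩ A) := by
      have := measureReal_inter_add_diff (μ := ν) (s := G ∩ {E | l E ≤ L - 1}) mA
      have := measureReal_mono (μ := ν) (diff_subset_diff_left (t := A)
        (inter_subset_left (s := G) (t := {E | l E ≤ L - 1})))
      linarith
    have c3 := mul_le_mul_of_nonneg_left c2 (by positivity : 0 ≤ γ * δ / 256 * n)
    have c4 := mul_le_mul_of_nonneg_left c1 d0.le
    simp only [sum_const, card_range, nsmul_eq_mul, smul_eq_mul, measureReal_restrict_apply_univ,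
      Real.volume_real_Icc, sub_zero, zero_le_one, max_eq_left, one_mul] at key b
    have or : ∀ a b c : ℝ, a + b ≤ 2 * c → a ≤ c ∨ b ≤ c := fun a b c h => by
      by_contra x; push Not at x; linarith
    rcases or _ _ _ key with c | c
    · exact ⟨_, _, _, _, _, s1, fun _ c => c.1.1, fun E => le_min (h.l0 E).2
        (le_add_of_nonneg_right (by positivity)), by linarith⟩
    · exact ⟨_, _, _, _, _, s2, fun _ c => c.1.1, fun E => le_min (h.l0 E).2
        (le_add_of_nonneg_right (by positivity)), by linarith⟩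
  simp only [Pi.add_apply, Pi.sub_apply, psi, mem_setOf_eq, Complex.add_im, add_sub_cancel]
  obtain ⟨M, hM⟩ : ∃ M, M = fl U E (m E) p ^ N := ⟨_, rfl⟩
  have lo : ∀ d, γ * l E ≤ γ * min L (l E + |tt (m E).im M d| / 4) := fun d =>
    mul_le_mul_of_nonneg_left (le_min (h.l0 E).2 (le_add_of_nonneg_right (by positivity))) g0
  have l1 := lo δ
  have l2 := lo (-δ)
  have P0 := (Po_nn (w := 16 * δ) (by positivity) (by linarith) M.im).1
  have P1 := mul_nonneg d0.le P0
  by_cases c : E ∈ G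
  swap
  · simp only [← hM, c, mem_inter_iff, mem_diff, false_and, if_false, indicator, sum_const_zero]
    linarith
  obtain ⟨f, f1, -⟩ := h.fq E c
  have f2 := (ybd f.1 f1).2.2
  by_cases c' : E ∈ A
  swap
  · simp only [← hM, c, c', mem_inter_iff, mem_diff, false_and, and_false, if_false, indicator,
      sum_const_zero, if_true, not_false_iff, and_self]
    linarith
  have S1 := Po_sum (by positivity : 0 < 16 * δ) M.im n hn
  have S0 : 0 ≤ ∑ i ∈ range n, Po (2 ^ i * (16 * δ)) M.im := sum_nonneg fun i hi =>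
    (Po_nn (by positivity) (by linarith [w1 i (mem_range.1 hi).le]) _).1
  have S2 : ∑ i ∈ range n, (if l E ≤ L - 1 then Po (2 ^ i * (16 * δ)) M.im else 0) =
      if l E ≤ L - 1 then ∑ i ∈ range n, Po (2 ^ i * (16 * δ)) M.im else 0 := by
    split_ifs <;> simp
  simp only [← hM, c, c', mem_inter_iff, mem_diff, true_and, and_true, indicator, if_true,
    not_true, if_false, mem_setOf_eq, S2]
  generalize ∑ i ∈ range n, Po (2 ^ i * (16 * δ)) M.im = S at *
  by_cases s : 16 * δ ≤ |M.im|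
  · have s0 : 0 < |M.im| := by linarith
    have hM1 : ‖M‖ = 1 := by rw [hM, norm_pow, f.2.1, one_pow]
    obtain ⟨e1, e2⟩ := pw3 f.1 f1 d0 d1 hM1 s
    have e3 := Po_low (w := 16 * δ) (by positivity) (by linarith) M.im _ s le_rfl
    have e4 : δ ^ 2 / M.im ^ 2 ≤ δ * Po (16 * δ) M.im := by
      refine le_trans ?_ (mul_le_mul_of_nonneg_left e3 d0.le)
      rw [← sq_abs M.im, show δ * (16 * δ / (5 * |M.im| ^ 2)) = 16 / 5 * (δ ^ 2 / |M.im| ^ 2) by
        field_simp]
      exact le_mul_of_one_le_left (by positivity) (by norm_num)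
    have e5 : ∀ x : ℝ, (if x ≤ 4 then x else 4) ≤ x := fun x => by split_ifs <;> linarith
    simp only [s, true_and]
    by_cases a : l E ≤ L - 1
    · have t1 := (pw1 f.1 f1 d0 d1 hM1 s (abs_of_pos d0)).1
      have t2 := (pw1 f.1 f1 d0 d1 hM1 s (d := -δ) (by rw [abs_neg, abs_of_pos d0])).1
      rw [max_eq_left s, div_eq_mul_inv] at S1
      rw [if_pos a, min_eq_right (by linarith), min_eq_right (by linarith)]
      have e6 := mul_le_mul_of_nonneg_left e2 g0
      have e7 := mul_le_mul_of_nonneg_left S1 (mul_nonneg g0 d0.le)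
      have e8 := mul_le_mul_of_nonneg_right g1 d0.le
      linarith [e5 (YY (m E).im M δ + (YY (m E).im M δ)⁻¹),
        e5 (YY (m E).im M (-δ) + (YY (m E).im M (-δ))⁻¹)]
    · rw [if_neg a]
      linarith [e5 (YY (m E).im M δ + (YY (m E).im M δ)⁻¹),
        e5 (YY (m E).im M (-δ) + (YY (m E).im M (-δ))⁻¹)]
  · simp only [s, false_and, if_false]
    have e3 := Po_low (w := 16 * δ) (by positivity) (by linarith) M.im _ le_rfl (not_le.1 s).le
    rw [max_eq_right (not_le.1 s).le] at S1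
    have e4 : 1 / 80 ≤ δ * Po (16 * δ) M.im :=
      le_trans (le_of_eq (by field_simp; norm_num)) (mul_le_mul_of_nonneg_left e3 d0.le)
    have e5 : δ * S ≤ 1 := (mul_le_mul_of_nonneg_left S1 d0.le).trans (le_of_eq (by field_simp))
    have e6 : γ * (δ * S) ≤ 1 := mul_le_one₀ g1 (mul_nonneg d0.le S0) e5
    split_ifs <;> linarith

end Pool.Agent.H.MP_dd0251_mp
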