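import Mathlib
import Pool.Agent.H.MP_dd0251_mp.C

namespace Pool.Agent.H.MP_dd0251_mp

open Filter Topology Set Finset MeasureTheory Pool.Agent.H.MP_3ab43d_mp

lemma st0 (δ L γ : ℝ) (hL : 0 ≤ L) : ∃ m, St 0 δ L 1 (fun _ => 0) (Icc 0 1) m (fun _ => 0) ∧
    ∫ E, psi γ (Icc 0 1) m (fun _ => 0) E ∂ν ≤ 21 / 10 := by
  have k : ∀ E ∈ Icc (0 : ℝ) 1, ∀ y, y = √(1 - E ^ 2 / 4) →
      0 < y ∧ y ^ 2 = 1 - E ^ 2 / 4 ∧ y ≤ 1 ∧ y + y⁻¹ ≤ 21 / 10 := fun E hE y hy => by
    have a : E ^ 2 ≤ 1 := pow_le_one₀ hE.1 hE.2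
    have b : 0 < y := hy ▸ Real.sqrt_pos.2 (by linarith)
    have c : y ^ 2 = 1 - E ^ 2 / 4 := hy ▸ Real.sq_sqrt (by linarith)
    have d : y ≤ 1 := by nlinarith [sq_nonneg E]
    have e : 4 / 5 ≤ y := by nlinarith
    refine ⟨b, c, d, ?_⟩
    rw [← le_sub_iff_add_le', inv_le_iff_one_le_mul₀ b]
    nlinarith
  have s : St 0 δ L 1 (fun _ => 0) (Icc 0 1) (fun E => ⟨E / 2, √(1 - E ^ 2 / 4)⟩) fun _ => 0 := by
    refine ⟨one_pos, fun _ => rfl, by simp, measurableSet_Icc, ?_, measurable_const,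
      fun _ => ⟨le_rfl, hL⟩, fun E hE => ?_⟩
    · simp only [Complex.mk_eq_add_mul_I]
      fun_prop
    obtain ⟨a, b, c, d⟩ := k E hE _ rfl
    generalize √(1 - E ^ 2 / 4) = y at *
    refine ⟨⟨a, ?_, ?_⟩, d.trans (by norm_num), ?_, 0, by simpa [fl, sol] using c⟩
    · show ‖(⟨E / 2, y⟩ : ℂ)‖ = 1
      rw [← sq_eq_sq₀ (norm_nonneg _) zero_le_one, ← Complex.normSq_eq_norm_sq, Complex.normSq_apply]
      linear_combination b
    · apply Complex.ext <;> simp [fl, sol]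
      · linear_combination b
      · ring
    · rw [abs_of_nonneg (by linarith [hE.1])]
      simp only [CharP.cast_eq_zero, zero_mul, add_zero]
      linarith [hE.2]
  refine ⟨_, s, (integral_mono_ae (s.int γ) (integrable_const (21 / 10))
    ((ae_restrict_mem measurableSet_Icc).mono fun E hE => ?_)).trans (by simp)⟩
  simp only [psi, hE, if_true, mul_zero, sub_zero]
  exact (k E hE _ rfl).2.2.2

lemma iter (D : ℝ) : ∃ U : ℤ → ℝ, (∀ n, |U n| ≤ 1) ∧ ∃ S, 4 / 5 ≤ ν.real S ∧ ∀ᵐ E ∂ν, E ∈ S →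
    ∀ F : ℕ → ℂ, (∀ n, F (n + 2) = ((E - U (n + 1 : ℕ) : ℝ) : ℂ) * F (n + 1) - F n) → ‖F 0‖ ≤ D →
      ‖F 1‖ ≤ D → ((starRingEnd ℂ) (F 0) * F 1).im = -1 → ∃ n, ‖F n‖ ≤ 54 ∧ ‖F (n + 1)‖ ≤ 54 := by
  obtain ⟨L, hL⟩ : ∃ L, L = 8 * (24 * D) ^ 2 + 1 := ⟨_, rfl⟩
  have L1 : 1 ≤ L := by rw [hL]; linarith [sq_nonneg (24 * D)]
  obtain ⟨n, hn⟩ := exists_nat_ge (2 ^ 19 * 10 * L)
  have n0 : (0 : ℝ) < n := by linarith
  obtain ⟨γ, hγ⟩ : ∃ γ : ℝ, γ = 2 ^ 19 / n := ⟨_, rfl⟩
  have g0 : 0 ≤ γ := by rw [hγ]; positivity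
  have g1 : γ * L ≤ 1 / 10 := by rw [hγ, div_mul_eq_mul_div, div_le_iff₀ n0]; linarith
  obtain ⟨δ, hδ⟩ : ∃ δ : ℝ, δ = 1 / (1024 * 2 ^ n) := ⟨_, rfl⟩
  have d0 : 0 < δ := by rw [hδ]; positivity
  have d1 : (2 ^ n : ℕ) * δ = 1 / 1024 := by rw [hδ]; push_cast; field_simp
  have d2 : γ * δ / 256 * n = 2048 * δ := by rw [hγ]; field_simp; norm_num
  have key : ∀ k ≤ 2 ^ n, ∃ p U G m l, St k δ L p U G m l ∧ ∫ E, psi γ G m l E ∂ν ≤
      21 / 10 + k * (165 * δ) - k * (2048 * δ) * (ν.real (G ∩ {E | l E ≤ L - 1}) - δ) := by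
    intro k hk
    induction k with
    | zero =>
      obtain ⟨m, a, b⟩ := st0 δ L γ (by linarith)
      exact ⟨_, _, _, _, _, a, by simpa using b⟩
    | succ k ih =>
      obtain ⟨p, U, G, m, l, a, b⟩ := ih (by omega)
      have c : ((k + 1 : ℕ) : ℝ) * δ ≤ (2 ^ n : ℕ) * δ := by gcongr
      push_cast at c d1
      obtain ⟨p', U', G', m', l', a', b1, b2, b3⟩ := a.step d0 n (by linarith) (by linarith) g0
        (by nlinarith)
      refine ⟨_, _, _, _, _, a', ?_⟩
      have := measureReal_mono (μ := ν) (s₁ := G' ∩ {E | l' E ≤ L - 1})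
        (s₂ := G ∩ {E | l E ≤ L - 1}) fun E hE => ⟨b1 hE.1, (b2 E).trans hE.2⟩
      have := mul_le_mul_of_nonneg_left this (by positivity : 0 ≤ (k + 1) * (2048 * δ))
      rw [d2] at b3
      push_cast
      linarith
  obtain ⟨p, U, G, m, l, a, b⟩ := key _ le_rfl
  have d3 : δ ≤ 1 / 1024 := by
    rw [← d1]; exact le_mul_of_one_le_left d0.le (by exact_mod_cast Nat.one_le_two_pow)
  refine ⟨U, fun n => (a.ub n).trans (by linarith), G \ {E | l E ≤ L - 1}, ?_, ?_⟩
  · have i : Integrable (G.indicator fun _ => (2 : ℝ)) ν := (integrable_const _).indicator a.mG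
    have c := integral_mono ((integrable_const (39 / 10 : ℝ)).sub i) (a.int γ) fun E => by
      have := mul_le_mul_of_nonneg_left (a.l0 E).2 g0
      by_cases c : E ∈ G
      · obtain ⟨f, f1, -⟩ := a.fq E c
        simp only [Pi.sub_apply, psi, c, indicator, if_true]
        linarith [(ybd f.1 f1).2.2]
      · simp only [Pi.sub_apply, psi, c, indicator, if_false]
        linarith
    rw [integral_sub' (integrable_const _) i, integral_indicator_const _ a.mG, integral_const] at c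
    have := measureReal_inter_add_diff (μ := ν) (s := G) (t := {E | l E ≤ L - 1})
      (measurableSet_le a.ml measurable_const)
    rw [mul_left_comm, mul_left_comm _ 2048, d1] at b
    simp only [smul_eq_mul, measureReal_restrict_apply_univ, Real.volume_real_Icc, sub_zero,
      zero_le_one, max_eq_left, one_mul] at c
    linarith
  filter_upwards [ae_restrict_of_ae (nz U), ae_restrict_mem measurableSet_Icc] with E z hE c F
    h1 h2 h3 h4
  obtain ⟨f, f1, f2, r, f3⟩ := a.fq E c.1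
  obtain ⟨y1, y2, -⟩ := ybd f.1 f1
  rw [d1] at f2 f3
  refine back f a.per a.p0 z (fun n => ?_) y1 y2 ?_ D F h1 h2 h3 h4 ⟨r, ?_⟩
  · have := abs_le.1 (a.ub n)
    rw [d1] at this
    exact abs_le.2 ⟨by linarith [hE.1], by linarith [hE.2]⟩
  · linarith [Complex.norm_le_abs_re_add_abs_im (m E), abs_of_pos f.1]
  · refine (abs_le_of_sq_le_sq' (le_trans ?_ f3) (norm_nonneg _)).2
    have : L ≤ 1 + l E := by linarith [not_le.1 (show ¬ l E ≤ L - 1 from c.2)]
    nlinarith [mul_le_mul this y1 (by norm_num) (by linarith)]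

noncomputable def TM (a b : ℕ → ℝ) (E : ℝ) (n : ℕ) : Matrix (Fin 2) (Fin 2) ℝ :=
  ((List.range n).reverse.map fun m => (a m)⁻¹ • !![E - b m, -1; a m ^ 2, 0]).prod

variable {a b : ℕ → ℝ}

lemma TM_succ (E : ℝ) (n : ℕ) :
    TM a b E (n + 1) = (a n)⁻¹ • !![E - b n, -1; a n ^ 2, 0] * TM a b E n := by
  simp [TM, List.range_succ]

lemma TM0 (E : ℝ) (n : ℕ) (j : Fin 2) :
    TM a b E (n + 1) 0 j = (a n)⁻¹ * ((E - b n) * TM a b E n 0 j - TM a b E n 1 j) := by
  simp [TM_succ, Matrix.mul_apply, Fin.sum_univ_two]; ring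

lemma TM1 (E : ℝ) (n : ℕ) (h : 0 < a n) (j : Fin 2) :
    TM a b E (n + 1) 1 j = a n * TM a b E n 0 j := by
  simp [TM_succ, Matrix.mul_apply, Fin.sum_univ_two, sq, h.ne']

lemma TM_congr {a' b' : ℕ → ℝ} (n : ℕ) (h : ∀ i < n, a' i = a i ∧ b' i = b i) (E : ℝ) :
    TM a' b' E n = TM a b E n := by
  induction n with
  | zero => rfl
  | succ n ih => rw [TM_succ, TM_succ, ih fun i hi => h i (by omega), (h n (by omega)).1,
      (h n (by omega)).2]

lemma TM_cont (n : ℕ) : Continuous fun E => TM a b E n := by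
  induction n with
  | zero => exact continuous_const
  | succ n ih =>
    simp only [TM_succ]
    refine Continuous.matrix_mul (continuous_matrix fun i j => ?_) ih
    fin_cases i <;> fin_cases j <;> simp <;> fun_prop

lemma TM_det (h : ∀ n, 0 < a n) (E : ℝ) (n : ℕ) :
    TM a b E n 0 0 * TM a b E n 1 1 - TM a b E n 0 1 * TM a b E n 1 0 = 1 := by
  induction n with
  | zero => simp [TM]
  | succ n ih =>
    rw [TM0, TM0, TM1 E n (h n), TM1 E n (h n), ← ih]
    have := h n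
    field_simp
    ring

lemma stage (h : ∀ i, (0 < a i ∧ a i ≤ 1) ∧ |b i| ≤ 1) (n : ℕ) (R : ℝ) (ε : ENNReal) (hε : 0 < ε) :
    ∃ (n' : ℕ) (a' b' : ℕ → ℝ), n < n' ∧ (∀ i < n, a' i = a i ∧ b' i = b i) ∧
      (∀ i, (0 < a' i ∧ a' i ≤ 1) ∧ |b' i| ≤ 1) ∧
      2⁻¹ ≤ ν {E | ∃ j, n ≤ j ∧ j ≤ n' ∧ ∀ i k, |TM a' b' E j i k| ≤ 54} ∧
      ν {E | |TM a' b' E n' 0 0| < R} ≤ ε := by
  let X : Matrix (Fin 2) (Fin 2) ℝ → Fin 2 → ℂ := fun M i => ⟨M i 0, M i 1⟩
  have cX : ∀ i, Continuous fun E => X (TM a b E n) i := fun i => by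
    have := TM_cont (a := a) (b := b) n
    simp only [X, Complex.mk_eq_add_mul_I]
    fun_prop
  obtain ⟨D, hD⟩ := isCompact_Icc.exists_bound_of_continuousOn (s := Icc (0 : ℝ) 1)
    ((cX 1).prodMk (cX 0)).continuousOn
  obtain ⟨U, u1, S, s1, s2⟩ := iter D
  let c : ℕ → ℝ := fun i => if i < n then a i else 1
  let d : ℕ → ℝ := fun i => if i < n then b i else U (i - n + 1 : ℕ)
  have c0 : ∀ i, (0 < c i ∧ c i ≤ 1) ∧ |d i| ≤ 1 := fun i => by
    simp only [c, d]
    split_ifs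
    exacts [h i, ⟨⟨one_pos, le_rfl⟩, u1 _⟩]
  have c1 : ∀ i, c (n + i) = 1 := fun i => if_neg (by omega)
  have d1 : ∀ i, d (n + i) = U (i + 1 : ℕ) := fun i => by
    simp only [d]; rw [if_neg (by omega), Nat.add_sub_cancel_left]
  have e0 := TM_congr (a := a) (b := b) (a' := c) (b' := d) n fun i hi => ⟨if_pos hi, if_pos hi⟩
  have t := tendsto_measure_iUnion_atTop (μ := ν)
    (s := fun J => {E | ∃ j, n ≤ j ∧ j ≤ n + J ∧ ∀ i k, |TM c d E j i k| ≤ 54})
    fun x y hxy E ⟨j, j1, j2, j3⟩ => ⟨j, j1, by omega, j3⟩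
  have hJ := (t.eventually_const_le (lt_of_lt_of_le (b := ν S) (a := 2⁻¹) (by
    rw [← ENNReal.toReal_lt_toReal (by simp) (measure_ne_top _ _)]
    exact lt_of_lt_of_le (by norm_num) s1) (measure_mono_ae ?_))).exists
  swap
  · filter_upwards [s2, ae_restrict_mem measurableSet_Icc] with E h1 hE h2
    have r : ∀ i, X (TM c d E (n + i + 1)) 1 = X (TM c d E (n + i)) 0 := fun i => by
      simp only [X, TM1 E _ (c0 _).1.1, c1, one_mul]
    obtain ⟨j, j1, j2⟩ := h1 h2 (fun i => X (TM c d E (n + i)) 1) (fun i => by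
      rw [show n + (i + 2) = n + (i + 1) + 1 from rfl, r (i + 1), ← add_assoc, r i]
      apply Complex.ext <;> simp [X, TM0, c1, d1])
      (by rw [add_zero, e0]; exact (norm_fst_le _).trans (hD E hE))
      (by rw [r 0, add_zero, e0]; exact (norm_snd_le _).trans (hD E hE)) (by
        rw [r 0, add_zero]
        have := TM_det (b := d) (fun i => (c0 i).1.1) E n
        simp [X]
        linarith)
    rw [← add_assoc, r] at j2
    refine mem_iUnion.2 ⟨j, n + j, by omega, le_rfl, fun i k => ?_⟩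
    fin_cases i <;> fin_cases k
    exacts [(Complex.abs_re_le_norm _).trans j2, (Complex.abs_im_le_norm _).trans j2,
      (Complex.abs_re_le_norm _).trans j1, (Complex.abs_im_le_norm _).trans j1]
  obtain ⟨J, hJ⟩ := hJ
  have ct := TM_cont (a := c) (b := d) (n + J)
  obtain ⟨β, b1, b2⟩ := ((Measure.countable_meas_level_set_pos (μ := ν)
    (g := fun E => E - TM c d E (n + J) 1 0 / TM c d E (n + J) 0 0)
    (by fun_prop)).dense_compl ℝ).exists_mem_open isOpen_Ioo (nonempty_Ioo.2 zero_lt_one)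
  have t2 := tendsto_measure_iInter_atTop (μ := ν) (s := fun k : ℕ =>
    {E | |(E - β) * TM c d E (n + J) 0 0 - TM c d E (n + J) 1 0| < |R| / (k + 1)})
    (fun k => (isOpen_lt (by fun_prop) continuous_const).nullMeasurableSet)
    (fun x y hxy E hE => lt_of_lt_of_le hE (show |R| / ((y : ℝ) + 1) ≤ |R| / (x + 1) by gcongr))
    ⟨0, measure_ne_top _ _⟩
  rw [measure_mono_null (fun E hE => ?_) (le_zero_iff.1 (not_lt.1 b1))] at t2
  swap
  · have := ge_of_tendsto' (tendsto_const_div_atTop_nhds_zero_nat (𝕜 := ℝ) |R| |>.comp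
      (tendsto_add_atTop_nat 1)) fun k => by simpa using (mem_iInter.1 hE k).le
    rw [abs_nonpos_iff, sub_eq_zero] at this
    have z : TM c d E (n + J) 0 0 ≠ 0 := fun z => by
      have e := TM_det (b := d) (fun i => (c0 i).1.1) E (n + J)
      rw [← this, z] at e
      simp at e
    simp only [mem_setOf_eq, ← this]
    field_simp
    ring
  obtain ⟨k, hk⟩ := (t2.eventually_le_const hε).exists
  have e1 := fun j hj => TM_congr (a := c) (b := d) (a' := Function.update c (n + J) (1 / (k + 1)))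
    (b' := Function.update d (n + J) β) j fun i hi =>
      ⟨Function.update_of_ne (by omega : i ≠ n + J) _ _,
        Function.update_of_ne (lt_of_lt_of_le hi hj).ne _ _⟩
  refine ⟨n + J + 1, Function.update c (n + J) (1 / (k + 1)), Function.update d (n + J) β, by omega,
    fun i hi => ?_, fun i => ?_, hJ.trans (measure_mono fun E ⟨j, j1, j2, j3⟩ =>
      ⟨j, j1, by omega, by rwa [e1 j j2]⟩), le_trans (measure_mono fun E hE => ?_) hk⟩
  · rw [Function.update_of_ne (by omega), Function.update_of_ne (by omega)]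
    exact ⟨if_pos hi, if_pos hi⟩
  · by_cases hi : i = n + J
    · rw [hi, Function.update_self, Function.update_self, abs_of_pos b2.1]
      exact ⟨⟨by positivity, div_le_one_of_le₀ (by linarith [k.cast_nonneg (α := ℝ)])
        (by positivity)⟩, b2.2.le⟩
    · rw [Function.update_of_ne hi, Function.update_of_ne hi]
      exact c0 i
  · rw [mem_setOf_eq, TM0, e1 _ le_rfl, Function.update_self, Function.update_self, one_div,
      inv_inv, abs_mul, abs_of_pos (by positivity)] at hE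
    rw [mem_setOf_eq, lt_div_iff₀' (by positivity)]
    exact hE.trans_le (le_abs_self R)

end Pool.Agent.H.MP_dd0251_mp
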