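import Mathlib
import Pool.Agent.H.MP_dd0251_mp.D

namespace Pool.Agent.H.MP_dd0251_mp

open Filter Topology Set Finset MeasureTheory Pool.Agent.H.MP_3ab43d_mp
open scoped InnerProductSpace

lemma exM (V : ℤ → ℝ) (hV : ∀ n, |V n| ≤ 1) :
    ∃ M : L2 →L[ℂ] L2, IsSelfAdjoint M ∧ ∀ (ψ : L2) x, M ψ x = V x * ψ x := by
  let M : L2 →L[ℂ] L2 := lp.mapCLM 2 (fun x => (V x : ℂ) • ContinuousLinearMap.id ℂ ℂ) zero_le_one
    fun x => by simpa [norm_smul] using hV x
  have hM : ∀ (ψ : L2) x, M ψ x = V x * ψ x := fun ψ x => rfl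
  refine ⟨M, ?_, hM⟩
  rw [ContinuousLinearMap.isSelfAdjoint_iff_isSymmetric]
  intro φ ψ
  simp only [ContinuousLinearMap.coe_coe, lp.inner_eq_tsum, hM]
  refine tsum_congr fun x => ?_
  simp
  ring

lemma exJ (A V : ℤ → ℝ) (hA : ∀ n, |A n| ≤ 1) (hV : ∀ n, |V n| ≤ 1) :
    ∃ H : L2 →L[ℂ] L2, IsSelfAdjoint H ∧ ∀ (ψ : L2) (n : ℤ),
      H ψ n = A n * ψ (n + 1) + A (n - 1) * ψ (n - 1) + V n * ψ n := by
  have on : Orthonormal ℂ dl := by
    rw [orthonormal_iff_ite]
    intro n m
    rw [dl_inner, dl_apply]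
  obtain ⟨J, a1, a2⟩ := iso (on.comp _ (add_left_injective 1))
  have a3 : ∀ (ψ : L2) x, J ψ x = ψ (x - 1) := fun ψ x => by
    rw [← dl_inner x (J ψ)]
    refine (a1 ψ _).unique ?_
    have := hasSum_single (f := fun n => ψ n * ⟪dl x, (dl ∘ fun x => x + 1) n⟫_ℂ) (x - 1)
      fun n hn => by
        simp only [Function.comp, dl_inner, dl_apply]
        rw [if_neg (by omega), mul_zero]
    simp only [Function.comp, dl_inner, dl_apply, sub_add_cancel, if_true, mul_one] at this ⊢
    exact this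
  obtain ⟨M, m1, m2⟩ := exM A hA
  obtain ⟨W, w1, w2⟩ := exM V hV
  refine ⟨star (J * M) + J * M + W, (IsSelfAdjoint.star_add_self _).add w1, fun ψ x => ?_⟩
  rw [ContinuousLinearMap.add_apply, ContinuousLinearMap.add_apply, lp.coeFn_add, Pi.add_apply,
    lp.coeFn_add, Pi.add_apply, w2, star_mul, m1.star_eq, ContinuousLinearMap.mul_apply,
    ContinuousLinearMap.mul_apply, m2, a3, m2, ContinuousLinearMap.star_eq_adjoint, a2]
  simp only [Function.comp, dl_inner]

lemma TM_ct (a b : ℕ → ℝ) (n : ℕ) (i j : Fin 2) : Continuous fun E => TM a b E n i j := by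
  have := TM_cont (a := a) (b := b) n
  fun_prop

lemma orth {X : Type} [NormedAddCommGroup X] [InnerProductSpace ℂ X] [CompleteSpace X]
    (T : X →L[ℂ] X) (hT : IsSelfAdjoint T) (a b : ℕ → ℝ) (h : ∀ n, 0 < a n) (e e' : ℕ → X)
    (μ : Measure ℝ) (hμ : IsSM T (e 0) μ) (h0 : e' 0 = 0) (h1 : ∀ n, e' (n + 1) = (a n : ℂ) • e n)
    (h2 : ∀ n, T (e n) - (b n : ℂ) • e n - e' n = (a n : ℂ) • e (n + 1)) (n : ℕ) :
    ∫ E, TM a b E n 0 0 * TM a b E n 0 0 ∂μ = ‖e n‖ ^ 2 := by
  have ct := TM_ct a b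
  have key : ∀ n : ℕ, cfc (fun E => TM a b E n 0 0) T (e 0) = e n ∧
      cfc (fun E => TM a b E n 1 0) T (e 0) = e' n := by
    intro n
    induction n with
    | zero => simp [TM, h0, cfc_const_one ℝ T]
    | succ n ih =>
      have : (a n : ℂ) ≠ 0 := by exact_mod_cast (h n).ne'
      simp only [TM0, TM1 _ n (h n)]
      rw [cfc_const_mul _ _ T, cfc_const_mul _ _ T, cfc_sub _ _ T, cfc_mul _ _ T,
        ContinuousLinearMap.smul_apply, ContinuousLinearMap.smul_apply,
        ContinuousLinearMap.sub_apply, ContinuousLinearMap.mul_apply, cfc_lin T hT, ih.1, ih.2, h2,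
        h1, ← Complex.coe_smul, ← Complex.coe_smul, Complex.ofReal_inv, inv_smul_smul₀ this]
      exact ⟨rfl, rfl⟩
  rw [hμ.sq _ (ct n 0 0), (key n).1]

lemma spec (a b : ℕ → ℝ) (h : ∀ i, (0 < a i ∧ a i ≤ 1) ∧ |b i| ≤ 1) : ∃ μ : Measure ℝ,
    IsFiniteMeasure μ ∧ (∀ k : ℕ, Integrable (fun x : ℝ => x ^ k) μ) ∧
    (∀ k : ℕ, ∫ x, x ^ k ∂μ = ((Matrix.of fun i j : Fin (k + 1) =>
      if i.val = j.val then b i.val else if j.val = i.val + 1 then a i.val
      else if i.val = j.val + 1 then a j.val else (0 : ℝ)) ^ k) 0 0) ∧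
    ∀ n, Integrable (fun E => TM a b E n 0 0 * TM a b E n 0 0) μ ∧
      ∫ E, TM a b E n 0 0 * TM a b E n 0 0 ∂μ = 1 := by
  let A : ℤ → ℝ := fun n => if 0 ≤ n then a n.toNat else 0
  have A0 : ∀ n : ℕ, A n = a n := fun n => by simp [A]
  have A1 : ∀ n < 0, A n = 0 := fun n hn => if_neg (by omega)
  obtain ⟨H, hs, hH⟩ := exJ A (fun n => b n.toNat) (fun n => by
    simp only [A]
    split_ifs
    exacts [(abs_of_pos (h _).1.1).trans_le (h _).1.2, by simp]) fun n => (h _).2
  obtain ⟨μ, hμ⟩ := specM H hs (dl 0)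
  let g : ℕ → ℤ → ℝ := fun k => (fun u n => A n * u (n + 1) + A (n - 1) * u (n - 1) +
    b n.toNat * u n)^[k] (Pi.single 0 1)
  have gS : ∀ k n, g (k + 1) n = A n * g k (n + 1) + A (n - 1) * g k (n - 1) + b n.toNat * g k n :=
    fun k n => by simp only [g, Function.iterate_succ_apply']
  have g1 : ∀ k n, (H ^ k) (dl 0) n = g k n := fun k => by
    induction k with
    | zero => intro n; simp [g, dl_apply, Pi.single_apply]; split_ifs <;> simp
    | succ k ih =>
      intro n
      rw [pow_succ', ContinuousLinearMap.mul_apply, hH, gS, ih, ih, ih]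
      push_cast
      rfl
  have g2 : ∀ (k : ℕ) n, (k : ℤ) < n → g k n = 0 := fun k => by
    induction k with
    | zero => intro n hn; exact Pi.single_eq_of_ne (by omega) _
    | succ k ih => intro n hn; rw [gS, ih _ (by omega), ih _ (by omega), ih _ (by omega)]; simp
  refine ⟨μ, hμ.1, fun k => (hμ.mom hs k).1, fun d => ?_, fun n => ?_⟩
  · have := (hμ.mom hs d).2
    rw [dl_inner, g1, Complex.ofReal_inj] at this
    rw [this]
    have key : ∀ j ≤ d, ∀ i : Fin (d + 1), ((Matrix.of fun i j : Fin (d + 1) =>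
        if i.val = j.val then b i.val else if j.val = i.val + 1 then a i.val
        else if i.val = j.val + 1 then a j.val else (0 : ℝ)) ^ j) i 0 = g j i.val := by
      intro j hj
      induction j with
      | zero =>
        intro i
        simp [g, Pi.single_apply, Matrix.one_apply]
      | succ j ih =>
        rintro ⟨i, hi⟩
        simp only [pow_succ', Matrix.mul_apply, ih (by omega), Matrix.of_apply, gS]
        rw [Fin.sum_univ_eq_sum_range (fun l => (if i = l then b i else if l = i + 1 then a i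
          else if i = l + 1 then a l else 0) * g j l), sum_congr rfl (g := fun l =>
            (if l = i + 1 then a i * g j l else 0) + (if i = l + 1 then a l * g j l else 0) +
              if i = l then b i * g j l else 0) fun l _ => by
                split_ifs <;> first | omega | simp, sum_add_distrib, sum_add_distrib, sum_ite_eq',
          sum_ite_eq, if_pos (mem_range.2 hi), A0, Int.toNat_natCast]
        congr 2
        · split_ifs with c
          · rfl
          · rw [g2 _ _ (by have := mem_range.not.1 c; omega), mul_zero]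
        · obtain _ | i := i
          · simp [A1]
          · simp [A0, show i < d + 1 by omega]
    exact (key d le_rfl 0).symm
  refine ⟨(hμ.2 _ ((TM_ct a b n 0 0).mul (TM_ct a b n 0 0))).1, ?_⟩
  rw [orth H hs a b (fun n => (h n).1.1) (fun n => dl n) (fun n => (A (n - 1) : ℂ) • dl (n - 1)) μ
    hμ (by simp [A1]) (fun n => by simp [A0]) fun n => lp.ext (funext fun x => ?_)]
  · simp [dl]
  simp only [lp.coeFn_smul, lp.coeFn_sub, Pi.smul_apply, Pi.sub_apply, hH, dl_apply, smul_eq_mul]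
  push_cast
  split_ifs <;> first | omega | simp_all

end Pool.Agent.H.MP_dd0251_mp
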