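import Mathlib
import Pool.Agent.H.MP_dd0251_mp.E

namespace Pool.Agent.H.MP_dd0251_mp

open Filter Topology Set Finset MeasureTheory Pool.Agent.H.MP_3ab43d_mp

lemma build : ∃ a b : ℕ → ℝ, (∀ i, (0 < a i ∧ a i ≤ 1) ∧ |b i| ≤ 1) ∧
    (∀ s, 2⁻¹ ≤ ν {E | ∃ j, s ≤ j ∧ ∀ i k, |TM a b E j i k| ≤ 54}) ∧
    ∀ s : ℕ, ∃ n, ν {E | |TM a b E n 0 0| < 2 ^ s} ≤ 2⁻¹ ^ s := by
  obtain ⟨f, -, hf⟩ := dc (S := ℕ × (ℕ → ℝ) × (ℕ → ℝ))
    (fun k s => (∀ i, (0 < s.2.1 i ∧ s.2.1 i ≤ 1) ∧ |s.2.2 i| ≤ 1) ∧ k ≤ s.1)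
    (fun k s t => s.1 < t.1 ∧ (∀ i < s.1, t.2.1 i = s.2.1 i ∧ t.2.2 i = s.2.2 i) ∧
      2⁻¹ ≤ ν {E | ∃ j, s.1 ≤ j ∧ j ≤ t.1 ∧ ∀ i k, |TM t.2.1 t.2.2 E j i k| ≤ 54} ∧
      ν {E | |TM t.2.1 t.2.2 E t.1 0 0| < 2 ^ k} ≤ 2⁻¹ ^ k)
    (0, fun _ => 1, fun _ => 0) ⟨by simp, le_rfl⟩ (by
      rintro k ⟨n, a, b⟩ ⟨h1, h2⟩
      obtain ⟨n', a', b', c1, c2, c3, c4⟩ := stage h1 n (2 ^ k) (2⁻¹ ^ k)
        (ENNReal.pow_pos (by simp) k)
      exact ⟨(n', a', b'), ⟨c3, Nat.succ_le_of_lt (lt_of_le_of_lt h2 c1)⟩, c1, c2, c4⟩)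
  have mono : Monotone fun k => (f k).1 := monotone_nat_of_le_succ fun k => (hf k).2.1.le
  have ch : ∀ s t, s ≤ t → ∀ i < (f s).1, (f t).2.1 i = (f s).2.1 i ∧ (f t).2.2 i = (f s).2.2 i := by
    intro s t h i hi
    induction t, h using Nat.le_induction with
    | base => exact ⟨rfl, rfl⟩
    | succ t h ih =>
      have := (hf t).2.2.1 i (hi.trans_le (mono h))
      exact ⟨this.1.trans ih.1, this.2.trans ih.2⟩
  have e : ∀ s, ∀ j ≤ (f s).1, ∀ E, TM (f s).2.1 (f s).2.2 E j =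
      TM (fun i => (f (i + 1)).2.1 i) (fun i => (f (i + 1)).2.2 i) E j := fun s j hj =>
    TM_congr j fun i hi => by
      rcases le_total s (i + 1) with c | c
      · have := ch _ _ c i (hi.trans_le hj)
        exact ⟨this.1.symm, this.2.symm⟩
      · exact ch _ _ c i (hf (i + 1)).1.2
  refine ⟨fun i => (f (i + 1)).2.1 i, fun i => (f (i + 1)).2.2 i, fun i => (hf _).1.1 i,
    fun s => (hf s).2.2.2.1.trans (measure_mono fun E ⟨j, j1, j2, j3⟩ =>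
      ⟨j, (hf s).1.2.trans j1, by rwa [← e _ j j2]⟩), fun s => ⟨(f (s + 1)).1, ?_⟩⟩
  simp only [← e _ _ le_rfl]
  exact (hf s).2.2.2.2

theorem main : ∃ a b : ℕ → ℝ, (∀ i, (0 < a i ∧ a i ≤ 1) ∧ |b i| ≤ 1) ∧ ∃ μ : Measure ℝ,
    (∀ k : ℕ, Integrable (fun x : ℝ => x ^ k) μ) ∧
    (∀ k : ℕ, ∫ x, x ^ k ∂μ = ((Matrix.of fun i j : Fin (k + 1) =>
      if i.val = j.val then b i.val else if j.val = i.val + 1 then a i.val
      else if i.val = j.val + 1 then a j.val else (0 : ℝ)) ^ k) 0 0) ∧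
    volume ({E | ∀ s, ∃ j ≥ s, ∀ i k, |TM a b E j i k| ≤ 54} \
      {E | 0 < μ.rnDeriv volume E}) ≠ 0 := by
  obtain ⟨a, b, h, h1, h2⟩ := build
  obtain ⟨μ, _, m1, m2, m3⟩ := spec a b h
  choose n hn using h2
  have sm : ∑' s : ℕ, (2⁻¹ : ENNReal) ^ s ≠ ⊤ := by simp
  have a1 := ae_eventually_notMem (ne_top_of_le_ne_top sm (ENNReal.tsum_le_tsum hn))
  have a2 := ae_eventually_notMem (μ := μ) (s := fun s => {E | |TM a b E (n s) 0 0| < 2 ^ s}ᶜ)
    (ne_top_of_le_ne_top sm (ENNReal.tsum_le_tsum fun s => by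
      have := mul_meas_ge_le_integral_of_nonneg (Eventually.of_forall fun E => mul_self_nonneg _)
        (m3 (n s)).1 (2 ^ s)
      rw [(m3 _).2, ← le_div_iff₀' (by positivity), measureReal_def,
        ← ENNReal.le_ofReal_iff_toReal_le (measure_ne_top _ _) (by positivity), one_div, ← inv_pow,
        ENNReal.ofReal_pow (by positivity), ENNReal.ofReal_inv_of_pos two_pos,
        ENNReal.ofReal_ofNat] at this
      refine le_trans (measure_mono fun E hE => ?_) this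
      have c := not_lt.1 (show ¬ |TM a b E (n s) 0 0| < 2 ^ s from hE)
      have d : (1 : ℝ) ≤ 2 ^ s := one_le_pow₀ one_le_two
      rw [mem_setOf_eq, ← abs_mul_abs_self]
      nlinarith))
  have sg : μ.restrict (Icc 0 1) ⟂ₘ volume := Measure.MutuallySingular.mk
    (s := {E | E ∈ Icc (0 : ℝ) 1 → ∀ᶠ s in atTop, E ∉ {E | |TM a b E (n s) 0 0| < 2 ^ s}})
    (measure_eq_zero_iff_ae_notMem.2 (by
      filter_upwards [ae_restrict_of_ae a2, ae_restrict_mem measurableSet_Icc] with E c hE d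
      exact ((d hE).and c).exists.elim fun s x => x.2 x.1))
    ((ae_restrict_iff' measurableSet_Icc).1 a1) (union_compl_self _).ge
  refine ⟨a, b, h, μ, m1, m2, fun z => ?_⟩
  have t := ge_of_tendsto' (tendsto_measure_iInter_atTop (μ := ν)
    (s := fun s => {E | ∃ j, s ≤ j ∧ ∀ i k, |TM a b E j i k| ≤ 54}) (fun s => by
      rw [setOf_exists]
      refine (MeasurableSet.iUnion fun j => .inter (.const _) ?_).nullMeasurableSet
      show MeasurableSet {E | ∀ i k, |TM a b E j i k| ≤ 54}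
      simp only [setOf_forall]
      exact .iInter fun i => .iInter fun k =>
        measurableSet_le (TM_ct a b j i k).abs.measurable measurable_const)
    (fun x y hxy E ⟨j, j1, j2⟩ => ⟨j, hxy.trans j1, j2⟩) ⟨0, measure_ne_top _ _⟩) h1
  rw [measure_eq_zero_iff_ae_notMem.2 (by
    filter_upwards [ae_restrict_of_ae (measure_eq_zero_iff_ae_notMem.1 z),
      ae_restrict_of_ae sg.rnDeriv_ae_eq_zero, ae_restrict_mem measurableSet_Icc,
      ae_restrict_of_ae (Measure.rnDeriv_restrict μ volume (measurableSet_Icc (a := 0) (b := 1)))]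
      with E c1 c2 hE c3 c4
    rw [c2, indicator_of_mem hE] at c3
    exact c1 ⟨mem_iInter.1 c4, by simp [← c3]⟩)] at t
  simp at t

end Pool.Agent.H.MP_dd0251_mp
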